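import Pool.Agent.Q192.SH.Stmts

namespace Pool.Agent.Q192.SH.AllB

open Pool.Agent.Q192.SH

theorem main : TaskAll := by
  intro E _ _ B m P hm hP C j hC hh y
  have key1 : ∀ (j d : ℕ) (x : E), P (d + j * m) ((B ^ j) x) = (B ^ j) (P d x) := by
    intro j
    induction j with
    | zero => intro d x; simp
    | succ j ih =>
      intro d x
      rw [pow_succ', ContinuousLinearMap.mul_apply, ContinuousLinearMap.mul_apply,
        show d + (j + 1) * m = (d + j * m) + m by ring, hP.up, ih]
  have key2 : ∀ (j e : ℕ) (x : E), e < j * m → P e ((B ^ j) x) = 0 := by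
    intro j
    induction j with
    | zero => intro e x he; simp at he
    | succ j ih =>
      intro e x he
      rw [pow_succ', ContinuousLinearMap.mul_apply]
      by_cases hem : e < m
      · exact hP.low e _ hem
      · obtain ⟨e', rfl⟩ : ∃ e', e = e' + m := ⟨e - m, by omega⟩
        have h2 : e' < j * m := by
          have h3 : (j + 1) * m = j * m + m := by ring
          omega
        rw [hP.up, ih e' x h2, map_zero]
  have hs := hP.sq ((B ^ j) y)
  have hs2 : HasSum (fun d => ‖P (d + j * m) ((B ^ j) y)‖ ^ 2) (‖(B ^ j) y‖ ^ 2) := by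
    have h1 := (hasSum_nat_add_iff' (f := fun e => ‖P e ((B ^ j) y)‖ ^ 2) (j * m)).2 hs
    have h0 : ∑ e ∈ Finset.range (j * m), ‖P e ((B ^ j) y)‖ ^ 2 = 0 := by
      refine Finset.sum_eq_zero fun e he => ?_
      rw [key2 j e y (Finset.mem_range.1 he)]
      simp
    rw [h0, sub_zero] at h1
    exact h1
  have hs3 : HasSum (fun d => C ^ 2 * ‖P d y‖ ^ 2) (C ^ 2 * ‖y‖ ^ 2) := (hP.sq y).mul_left _
  have h4 : ‖(B ^ j) y‖ ^ 2 ≤ C ^ 2 * ‖y‖ ^ 2 := by
    refine hasSum_le (fun d => ?_) hs2 hs3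
    rw [key1 j d y, ← mul_pow]
    have h5 : P d (P d y) = P d y := by
      rw [hP.proj d d y, if_pos rfl]
    exact pow_le_pow_left₀ (norm_nonneg _) (hh d (P d y) h5) 2
  rw [← mul_pow] at h4
  exact (sq_le_sq₀ (norm_nonneg _) (by positivity)).1 h4

end Pool.Agent.Q192.SH.AllB
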