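import Pool.Agent.Q192.SH.Stmts

open Filter Topology

namespace Pool.Agent.Q192.SH

private lemma phi_zero {n : ℕ} (k : Fin n → ℤ) : phi k 0 = 1 := by
  unfold phi
  have : ∀ π : Equiv.Perm (Fin n), Complex.exp (((∑ j, (k (π j) : ℝ) * (0 : Fin n → ℝ) j : ℝ) : ℂ) *
      Complex.I) = 1 := by
    intro π
    simp
  simp only [this]
  rw [Finset.sum_const, Finset.card_univ, Fintype.card_perm, Fintype.card_fin, nsmul_eq_mul, mul_one]
  exact inv_mul_cancel₀ (by exact_mod_cast n.factorial_ne_zero)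

private lemma ball_sub (S : Set ℂ) (hS : IsClosed S) (h : ∀ l : ℂ, l ≠ 0 → ‖l‖ < 1 → l ∈ S) :
    Metric.closedBall (0 : ℂ) 1 ⊆ S := by
  have h1 : Metric.ball (0 : ℂ) 1 ⊆ S := by
    intro l hl
    rw [mem_ball_zero_iff] at hl
    by_cases h0 : l = 0
    · subst h0
      have hlim : Tendsto (fun m : ℕ => ((1 / ((m : ℝ) + 2) : ℝ) : ℂ)) atTop (𝓝 0) := by
        have h2 : Tendsto (fun m : ℕ => (1 / ((m : ℝ) + 2) : ℝ)) atTop (𝓝 0) := by
          have h3 := (tendsto_one_div_add_atTop_nhds_zero_nat (𝕜 := ℝ)).comp (tendsto_add_atTop_nat 1)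
          refine h3.congr fun m => ?_
          simp only [Function.comp]
          push_cast
          ring
        have h4 := (Complex.continuous_ofReal.tendsto 0).comp h2
        simpa [Function.comp_def] using h4
      refine hS.mem_of_tendsto hlim (Eventually.of_forall fun m => h _ ?_ ?_)
      · have : (0 : ℝ) < 1 / ((m : ℝ) + 2) := by positivity
        exact_mod_cast this.ne'
      · rw [Complex.norm_real, Real.norm_eq_abs, abs_of_pos (by positivity)]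
        rw [div_lt_one (by positivity)]
        have : (0 : ℝ) ≤ (m : ℝ) := by positivity
        linarith
    · exact h l h0 hl
  rw [← closure_ball (0 : ℂ) one_ne_zero]
  exact hS.closure_subset_iff.2 h1

private lemma up_abs (E : Type) [NormedAddCommGroup E] [NormedSpace ℂ E] [CompleteSpace E]
    (B : E →L[ℂ] E) (hB1 : ∀ x, ‖B x‖ ≤ ‖x‖) : spectrum ℂ B ⊆ Metric.closedBall 0 1 := by
  refine (spectrum.subset_closedBall_norm_mul B).trans (Metric.closedBall_subset_closedBall ?_)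
  have h2 : ‖B‖ ≤ 1 := ContinuousLinearMap.opNorm_le_bound _ zero_le_one
    (fun x => by rw [one_mul]; exact hB1 x)
  have h3 : ‖(1 : E →L[ℂ] E)‖ ≤ 1 := ContinuousLinearMap.norm_id_le
  calc ‖B‖ * ‖(1 : E →L[ℂ] E)‖ ≤ 1 * 1 :=
        mul_le_mul h2 h3 (norm_nonneg _) zero_le_one
    _ = 1 := one_mul 1

private lemma pos_abs (hDisc : TaskDisc) (E : Type) [NormedAddCommGroup E] [NormedSpace ℂ E]
    [CompleteSpace E] (B : E →L[ℂ] E) (hB1 : ∀ x, ‖B x‖ ≤ ‖x‖) (m : ℕ) (P : ℕ → E →L[ℂ] E)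
    (hm : 0 < m) (hP : Graded E B m P)
    (h1 : ∀ ε : ℝ, 0 < ε → ∃ x : E, x ≠ 0 ∧ ‖B x - x‖ ≤ ε * ‖x‖) :
    spectrum ℂ B = Metric.closedBall 0 1 := by
  refine Set.Subset.antisymm (up_abs E B hB1) ?_
  exact ball_sub _ (spectrum.isClosed B) (hDisc E B m P hm hP hB1 h1)

theorem assemble (hOp : TaskOp) (hUniq : TaskUniq) (hComplete : TaskComplete)
    (hApprox : TaskApprox) (hSpec : TaskSpec) (hNorm : TaskNorm) (hDisc : TaskDisc)
    (hGraded : TaskGraded) (hAdj : TaskAdj) (hAdjSpec : TaskAdjSpec) (hNum : TaskNum)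
    (hCompact : TaskCompact) (hHull : TaskHull) (hInterval : TaskInterval) (hOdd : TaskOdd)
    (n : ℕ) (hn : 1 ≤ n) (k : Fin n → ℤ) (hk : ∀ j, k j ≠ 0)
    (χ : Equiv.Perm (Fin n) →* ℤˣ) :
    ∃ B : V n χ →L[ℂ] V n χ, (IsOp k χ B ∧ ∀ B' : V n χ →L[ℂ] V n χ, IsOp k χ B' → B' = B) ∧
      ‖B‖ = 1 ∧
      (∑ j, k j ≠ 0 → spectrum ℂ B = Metric.closedBall 0 1) ∧
      (Set.range (phi k) ⊆ spectrum ℂ B ∧ spectrum ℂ B ⊆ convexHull ℝ (Set.range (phi k))) ∧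
      ((∃ π : Equiv.Perm (Fin n), ∀ j, k (π j) = - k j) →
        spectrum ℂ B = Set.range (phi k) ∧
        (∃ a : ℝ, -1 ≤ a ∧ a ≤ 0 ∧ spectrum ℂ B = Complex.ofReal '' Set.Icc a 1) ∧
        (∀ v : ℕ, (∀ j, ∃ o : ℤ, Odd o ∧ k j = 2 ^ v * o) →
          spectrum ℂ B = Complex.ofReal '' Set.Icc (-1) 1)) := by
  have := hComplete n χ
  obtain ⟨B, hB, hB1⟩ := hOp n k χ
  have happ := hApprox n hn k χ B hB
  have h1 : ∀ ε : ℝ, 0 < ε → ∃ x : V n χ, x ≠ 0 ∧ ‖B x - x‖ ≤ ε * ‖x‖ := by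
    intro ε hε
    obtain ⟨x, hx, hx2⟩ := happ 0 ε hε
    rw [phi_zero, one_smul] at hx2
    exact ⟨x, hx, hx2⟩
  have hrange : Set.range (phi k) ⊆ spectrum ℂ B := by
    rintro _ ⟨t, rfl⟩
    exact hSpec (V n χ) B (phi k t) (happ t)
  have hhull : spectrum ℂ B ⊆ convexHull ℝ (Set.range (phi k)) := by
    refine hHull (V n χ) B _ (hCompact n k) fun c α h x => ?_
    exact hNum n k χ B hB c α (fun t => h _ ⟨t, rfl⟩) x
  have hpos : ∀ k' : Fin n → ℤ, 0 < ∑ j, k' j → ∀ C : V n χ →L[ℂ] V n χ, IsOp k' χ C →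
      (∀ x, ‖C x‖ ≤ ‖x‖) → spectrum ℂ C = Metric.closedBall 0 1 := by
    intro k' hk' C hC hC1
    obtain ⟨m, hm⟩ : ∃ m : ℕ, ∑ j, k' j = (m : ℤ) := ⟨(∑ j, k' j).toNat, by omega⟩
    have hm0 : 0 < m := by omega
    obtain ⟨P, hP⟩ := hGraded n k' m χ C hC hm
    have h1' : ∀ ε : ℝ, 0 < ε → ∃ x : V n χ, x ≠ 0 ∧ ‖C x - x‖ ≤ ε * ‖x‖ := by
      intro ε hε
      obtain ⟨x, hx, hx2⟩ := hApprox n hn k' χ C hC 0 ε hε
      rw [phi_zero, one_smul] at hx2
      exact ⟨x, hx, hx2⟩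
    exact pos_abs hDisc (V n χ) C hC1 m P hm0 hP h1'
  have hdisc : ∑ j, k j ≠ 0 → spectrum ℂ B = Metric.closedBall 0 1 := by
    intro hs
    rcases lt_or_gt_of_ne hs with hs | hs
    · obtain ⟨C, hC, hC1⟩ := hOp n (-k) χ
      have h2 : 0 < ∑ j, (-k) j := by
        simp only [Pi.neg_apply, Finset.sum_neg_distrib]
        omega
      have h3 := hpos (-k) h2 C hC hC1
      ext l
      rw [hAdjSpec (V n χ) B C (hAdj n k χ B C hB hC) l, h3, mem_closedBall_zero_iff,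
        mem_closedBall_zero_iff, RCLike.norm_conj]
    · exact hpos k hs B hB hB1
  refine ⟨B, ⟨hB, fun B' hB' => hUniq n k χ B' B hB' hB⟩, hNorm (V n χ) B hB1 h1, hdisc,
    ⟨hrange, hhull⟩, fun hsym => ?_⟩
  obtain ⟨a, ha1, ha0, ha⟩ := hInterval n hn k hk hsym
  have hconv : Convex ℝ (Set.range (phi k)) := by
    rw [ha]
    have := (convex_Icc a 1).linear_image (Complex.ofRealCLM : ℝ →L[ℝ] ℂ).toLinearMap
    exact this
  have hsp : spectrum ℂ B = Set.range (phi k) := by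
    refine Set.Subset.antisymm ?_ hrange
    rw [hconv.convexHull_eq] at hhull
    exact hhull
  refine ⟨hsp, ⟨a, ha1, ha0, hsp.trans ha⟩, fun v hv => ?_⟩
  have h5 := hOdd n hn k v hv
  rw [ha] at h5
  obtain ⟨b, hb, hb1⟩ := h5
  have hb2 : b = -1 := by exact_mod_cast hb1
  have ha2 : a = -1 := le_antisymm (by rw [← hb2]; exact hb.1) ha1
  rw [hsp, ha, ha2]

end Pool.Agent.Q192.SH
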