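import Pool.Agent.Q192.SH.Stmts

namespace Pool.Agent.Q192.SH

/-- `S`: the unilateral shift on sequences, `S e_a = e_(a+1)`. -/
def shift (u : ℕ → ℂ) : ℕ → ℂ := fun a => if a = 0 then 0 else u (a - 1)

/-- `S^*`: `S^* e_a = e_(a-1)` and `S^* e_0 = 0`. -/
def coshift (u : ℕ → ℂ) : ℕ → ℂ := fun a => u (a + 1)

/-- `S^k` for `k ≥ 0` and `(S^*)^(-k)` for `k < 0`. -/
def factor (k : ℤ) : (ℕ → ℂ) → ℕ → ℂ :=
  if 0 ≤ k then shift^[k.toNat] else coshift^[(-k).toNat]

lemma shift_iter (m : ℕ) (u : ℕ → ℂ) (a : ℕ) :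
    shift^[m] u a = if m ≤ a then u (a - m) else 0 := by
  induction m generalizing a with
  | zero => simp
  | succ m ih =>
    rw [Function.iterate_succ_apply']
    unfold shift
    by_cases h0 : a = 0
    · subst h0
      simp
    · rw [if_neg h0]
      have h1 := ih (a - 1)
      unfold shift at h1
      rw [h1]
      by_cases h : m + 1 ≤ a
      · rw [if_pos h, if_pos (by omega)]
        congr 1
        omega
      · rw [if_neg h, if_neg (by omega)]

lemma coshift_iter (m : ℕ) (u : ℕ → ℂ) (a : ℕ) : coshift^[m] u a = u (a + m) := by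
  induction m generalizing a with
  | zero => simp
  | succ m ih =>
    rw [Function.iterate_succ_apply']
    unfold coshift
    have h1 := ih (a + 1)
    unfold coshift at h1
    rw [h1]
    congr 1
    omega

lemma factor_apply (k : ℤ) (u : ℕ → ℂ) (a : ℕ) :
    factor k u a = if k ≤ (a : ℤ) then u ((a : ℤ) - k).toNat else 0 := by
  unfold factor
  by_cases hk : 0 ≤ k
  · rw [if_pos hk, shift_iter]
    by_cases h : k ≤ (a : ℤ)
    · rw [if_pos h, if_pos (by omega)]
      congr 1
      omega
    · rw [if_neg h, if_neg (by omega)]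
  · rw [if_neg hk, coshift_iter, if_pos (by omega)]
    congr 1
    omega

/-- On elementary tensors the operator acts factor by factor. -/
lemma act_prod {n : ℕ} (k : Fin n → ℤ) (u : Fin n → ℕ → ℂ) (i : Fin n → ℕ) :
    act k (fun i => ∏ j, u j (i j)) i = ∏ j, factor (k j) (u j) (i j) := by
  unfold act
  simp only [factor_apply]
  rw [Finset.prod_ite_zero]
  simp

end Pool.Agent.Q192.SH
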