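import Mathlib

/-!
Blueprint for MP_0b6044_an: symmetrized tensor products of powers of the shift and of its adjoint.
The Hilbert tensor power of `ℓ²(ℕ)` is `ℓ²(ℕ^n)`: the coordinate `i` of `x` is the coefficient of
`e_{i 0} ⊗ … ⊗ e_{i (n-1)}`.
-/

open Filter Topology

namespace Pool.Agent.Q192.SH

/-- the Hilbert tensor power of `ℓ²`, as `ℓ²(ℕ^n)` -/
abbrev H (n : ℕ) : Type := lp (fun _ : Fin n → ℕ => ℂ) 2

/-- `A_0 ⊗ … ⊗ A_{n-1}` in coordinates, `A_j = S^(k j)` if `k j ≥ 0` and `(S^*)^(-k j)` if `k j < 0` -/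
def act {n : ℕ} (k : Fin n → ℤ) (x : (Fin n → ℕ) → ℂ) (i : Fin n → ℕ) : ℂ :=
  if ∀ j, k j ≤ (i j : ℤ) then x (fun j => ((i j : ℤ) - k j).toNat) else 0

/-- the average over all permutations of the factors -/
noncomputable def symAct {n : ℕ} (k : Fin n → ℤ) (x : (Fin n → ℕ) → ℂ) (i : Fin n → ℕ) : ℂ :=
  ((n.factorial : ℂ))⁻¹ * ∑ π : Equiv.Perm (Fin n), act (k ∘ π) x i

/-- `χ = 1`: symmetric tensors; `χ = Equiv.Perm.sign`: antisymmetric tensors -/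
def V (n : ℕ) (χ : Equiv.Perm (Fin n) →* ℤˣ) : Submodule ℂ (H n) where
  carrier := {x | ∀ (π : Equiv.Perm (Fin n)) (i : Fin n → ℕ),
    (x : (Fin n → ℕ) → ℂ) (i ∘ π) = ((χ π : ℤ) : ℂ) * (x : (Fin n → ℕ) → ℂ) i}
  add_mem' := by
    intro x y hx hy π i
    rw [lp.coeFn_add, Pi.add_apply, Pi.add_apply, hx π i, hy π i, mul_add]
  zero_mem' := by
    intro π i
    simp
  smul_mem' := by
    intro c x hx π i
    rw [lp.coeFn_smul, Pi.smul_apply, Pi.smul_apply, hx π i, smul_eq_mul, smul_eq_mul]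
    ring

/-- `B` is the (anti)symmetric tensor product with exponents `k` -/
def IsOp {n : ℕ} (k : Fin n → ℤ) (χ : Equiv.Perm (Fin n) →* ℤˣ) (B : V n χ →L[ℂ] V n χ) : Prop :=
  ∀ (x : V n χ) (i : Fin n → ℕ), ((B x : H n) : (Fin n → ℕ) → ℂ) i = symAct k ((x : H n) : (Fin n → ℕ) → ℂ) i

/-- the symbol -/
noncomputable def phi {n : ℕ} (k : Fin n → ℤ) (t : Fin n → ℝ) : ℂ :=
  ((n.factorial : ℂ))⁻¹ * ∑ π : Equiv.Perm (Fin n),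
    Complex.exp (((∑ j, (k (π j) : ℝ) * t j : ℝ) : ℂ) * Complex.I)

/-! ### the operators -/

/-- A partial injection of the index set acts with norm ≤ 1. `Memℓp` at `2` (`memℓp_gen_iff`), the set
`{i | k ≤ i}` is mapped injectively by `i ↦ i - k`; `LinearMap.mkContinuous`. 40-50 lines. -/
def TaskAct : Prop := ∀ (n : ℕ) (k : Fin n → ℤ), ∃ T : H n →L[ℂ] H n,
  (∀ (x : H n) (i : Fin n → ℕ), (T x : (Fin n → ℕ) → ℂ) i = act k x i) ∧ ∀ x, ‖T x‖ ≤ ‖x‖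

/-- `act (k ∘ σ) x (i ∘ π) = χ π * act (k ∘ σ ∘ π⁻¹) x i`, then reindex `σ ↦ σ * π`. 25 lines. -/
def TaskInv : Prop := ∀ (n : ℕ) (k : Fin n → ℤ) (χ : Equiv.Perm (Fin n) →* ℤˣ) (x : (Fin n → ℕ) → ℂ),
  (∀ (π : Equiv.Perm (Fin n)) (i : Fin n → ℕ), x (i ∘ π) = ((χ π : ℤ) : ℂ) * x i) →
  ∀ (π : Equiv.Perm (Fin n)) (i : Fin n → ℕ),
    symAct k x (i ∘ π) = ((χ π : ℤ) : ℂ) * symAct k x i

/-- Uses TaskAct, TaskInv (average, then `ContinuousLinearMap.restrict`/`codRestrict`). 30 lines. -/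
def TaskOp : Prop := ∀ (n : ℕ) (k : Fin n → ℤ) (χ : Equiv.Perm (Fin n) →* ℤˣ),
  ∃ B : V n χ →L[ℂ] V n χ, IsOp k χ B ∧ ∀ x, ‖B x‖ ≤ ‖x‖

/-- extensionality. 10 lines. -/
def TaskUniq : Prop := ∀ (n : ℕ) (k : Fin n → ℤ) (χ : Equiv.Perm (Fin n) →* ℤˣ)
  (B B' : V n χ →L[ℂ] V n χ), IsOp k χ B → IsOp k χ B' → B = B'

/-- `V n χ` is closed (coordinates are continuous, `lp.evalCLM` or `lp.norm_apply_le_norm`). 20 lines. -/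
def TaskComplete : Prop := ∀ (n : ℕ) (χ : Equiv.Perm (Fin n) →* ℤˣ), CompleteSpace (V n χ)

/-! ### approximate eigenvectors. Block `b` is `[b N, (b+1) N)`. -/

/-- `x = ∑_σ χ(σ) u_{σ 0} ⊗ … ⊗ u_{σ (n-1)}`, where `u_b (a) = exp (-i a t_b)` for `a` in block `b`. -/
noncomputable def vec {n : ℕ} (χ : Equiv.Perm (Fin n) →* ℤˣ) (N : ℕ) (t : Fin n → ℝ)
    (i : Fin n → ℕ) : ℂ :=
  ∑ σ : Equiv.Perm (Fin n), ((χ σ : ℤ) : ℂ) *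
    ∏ j, (if (σ j : ℕ) * N ≤ i j ∧ i j < ((σ j : ℕ) + 1) * N then
      Complex.exp (-((t (σ j) * (i j : ℝ) : ℝ) : ℂ) * Complex.I) else 0)

/-- reindex. 20 lines. -/
def TaskVecSym : Prop := ∀ (n : ℕ) (χ : Equiv.Perm (Fin n) →* ℤˣ) (N : ℕ) (t : Fin n → ℝ)
  (π : Equiv.Perm (Fin n)) (i : Fin n → ℕ), vec χ N t (i ∘ π) = ((χ π : ℤ) : ℂ) * vec χ N t i

/-- At most one `σ` contributes (a number lies in at most one block). (a) `|vec| ≤ 1`, (b) it vanishes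
if some `i j ≥ n N`, (c) it has modulus one if `i j` is in block `j` for all `j`. 40 lines. -/
def TaskVecVal : Prop := ∀ (n : ℕ) (χ : Equiv.Perm (Fin n) →* ℤˣ) (N : ℕ) (t : Fin n → ℝ)
  (i : Fin n → ℕ), ‖vec χ N t i‖ ≤ 1 ∧ ((∃ j, n * N ≤ i j) → vec χ N t i = 0) ∧
    ((∀ j : Fin n, (j : ℕ) * N ≤ i j ∧ i j < ((j : ℕ) + 1) * N) → ‖vec χ N t i‖ = 1)

/-- If every `i j` has distance more than `K ≥ |k|` from all block ends `b N`, `0 ≤ b ≤ n`, then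
`symAct k vec = phi k t * vec` at `i`: `i j` and `i j - k (π j)` are in the same block (or both outside),
`act (k ∘ π) (σ-term) i = exp (I ∑_j k (π j) t (σ j)) * (σ-term) i`, and the average over `π` of
`exp (I ∑_j k (π j) t (σ j))` is `phi k t` for every `σ` (reindex `π ↦ π * σ`). 60-80 lines. -/
def TaskVecInt : Prop := ∀ (n : ℕ) (χ : Equiv.Perm (Fin n) →* ℤˣ) (N : ℕ) (t : Fin n → ℝ)
  (k : Fin n → ℤ) (K : ℕ) (i : Fin n → ℕ), (∀ j, |k j| ≤ (K : ℤ)) →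
  (∀ (j : Fin n) (b : ℕ), b ≤ n → (K : ℤ) < |(i j : ℤ) - ((b * N : ℕ) : ℤ)|) →
  symAct k (vec χ N t) i = phi k t * vec χ N t i

/-- `|symAct k y i| ≤ c` if `|y| ≤ c`; and `symAct k y i = 0` if some `i j ≥ L + K` and `y` vanishes
as soon as one coordinate is `≥ L`. 25 lines. -/
def TaskSymBd : Prop := ∀ (n : ℕ) (k : Fin n → ℤ) (K L : ℕ) (y : (Fin n → ℕ) → ℂ),
  (∀ j, |k j| ≤ (K : ℤ)) → (∀ i, ‖y i‖ ≤ 1) → (∀ i, (∃ j, L ≤ i j) → y i = 0) →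
  (∀ i, ‖symAct k y i‖ ≤ 1) ∧ (∀ i, (∃ j, L + K ≤ i j) → symAct k y i = 0)

/-- The points of the box `[0, L)^n` with some coordinate within `K` of some `b N`, `b ≤ n`, are at most
`n (n+1) (2K+1) L^(n-1)` many (union over `j`, `b`, and the value of `i j`). 40 lines. -/
def TaskBad : Prop := ∀ (n N K L : ℕ), 1 ≤ n →
  ((Finset.univ.filter (fun i : Fin n → Fin L =>
    ∃ (j : Fin n) (b : ℕ), b ≤ n ∧ |((i j : ℕ) : ℤ) - ((b * N : ℕ) : ℤ)| ≤ (K : ℤ))).card) ≤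
    n * (n + 1) * (2 * K + 1) * L ^ (n - 1)

/-- Uses TaskVecSym, TaskVecVal, TaskVecInt, TaskSymBd, TaskBad. `x = vec χ N t`, `‖x‖² ≥ N^n` (points of
TaskVecVal (c)), `‖B x - phi x‖² ≤ 4 n (n+1) (2K+1) (n N + K)^(n-1)`, `N → ∞`. 70 lines. -/
def TaskApprox : Prop := ∀ (n : ℕ), 1 ≤ n → ∀ (k : Fin n → ℤ) (χ : Equiv.Perm (Fin n) →* ℤˣ)
  (B : V n χ →L[ℂ] V n χ), IsOp k χ B → ∀ (t : Fin n → ℝ) (ε : ℝ), 0 < ε →
  ∃ x : V n χ, x ≠ 0 ∧ ‖B x - phi k t • x‖ ≤ ε * ‖x‖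

/-- Abstract. If `B - λ` were a unit it would be bounded below. 20 lines. -/
def TaskSpec : Prop := ∀ (E : Type) [NormedAddCommGroup E] [NormedSpace ℂ E] (B : E →L[ℂ] E) (l : ℂ),
  (∀ ε : ℝ, 0 < ε → ∃ x : E, x ≠ 0 ∧ ‖B x - l • x‖ ≤ ε * ‖x‖) → l ∈ spectrum ℂ B

/-- Abstract. 15 lines. -/
def TaskNorm : Prop := ∀ (E : Type) [NormedAddCommGroup E] [NormedSpace ℂ E] (B : E →L[ℂ] E),
  (∀ x, ‖B x‖ ≤ ‖x‖) → (∀ ε : ℝ, 0 < ε → ∃ x : E, x ≠ 0 ∧ ‖B x - x‖ ≤ ε * ‖x‖) → ‖B‖ = 1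

/-! ### nonzero sum of the exponents: the disc -/

/-- Graded operators of degree `m > 0`. -/
structure Graded (E : Type) [NormedAddCommGroup E] [NormedSpace ℂ E] (B : E →L[ℂ] E) (m : ℕ)
    (P : ℕ → E →L[ℂ] E) : Prop where
  sq : ∀ x, HasSum (fun d => ‖P d x‖ ^ 2) (‖x‖ ^ 2)
  proj : ∀ d e x, P d (P e x) = if d = e then P d x else 0
  up : ∀ d x, P (d + m) (B x) = B (P d x)
  low : ∀ d x, d < m → P d (B x) = 0

/-- Let `B x - l x = y`, `y` homogeneous of degree `d`. Then `P e x = 0` for `e < d` (strong induction: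
`l P e x = B (P (e-m) x)` or `0`), `P d x = - l⁻¹ y`, `P (d + j m) x = - l^(-j-1) B^j y`; and
`‖P e x‖ ≤ ‖x‖ ≤ M ‖y‖`. 40 lines. -/
def TaskHom : Prop := ∀ (E : Type) [NormedAddCommGroup E] [NormedSpace ℂ E] (B : E →L[ℂ] E) (m : ℕ)
  (P : ℕ → E →L[ℂ] E), 0 < m → Graded E B m P → ∀ (l : ℂ), l ≠ 0 → ∀ (M : ℝ),
  (∀ y : E, ∃ x : E, B x - l • x = y ∧ ‖x‖ ≤ M * ‖y‖) →
  ∀ (d : ℕ) (y : E), P d y = y → ∀ j : ℕ, ‖(B ^ j) y‖ ≤ M * ‖l‖ ^ (j + 1) * ‖y‖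

/-- From homogeneous to all `y`: `‖B^j y‖² = ∑_e ‖P e (B^j y)‖² = ∑_d ‖B^j (P d y)‖²`. 40 lines. -/
def TaskAll : Prop := ∀ (E : Type) [NormedAddCommGroup E] [NormedSpace ℂ E] (B : E →L[ℂ] E) (m : ℕ)
  (P : ℕ → E →L[ℂ] E), 0 < m → Graded E B m P → ∀ (C : ℝ) (j : ℕ), 0 ≤ C →
  (∀ (d : ℕ) (y : E), P d y = y → ‖(B ^ j) y‖ ≤ C * ‖y‖) → ∀ y : E, ‖(B ^ j) y‖ ≤ C * ‖y‖

/-- Uses TaskHom, TaskAll. If `l ∉ spectrum`, `M = ‖(B - l)⁻¹‖`; `‖B^j y‖ ≤ M r^(j+1) ‖y‖` contradicts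
`‖B x - x‖ ≤ ε ‖x‖`, which gives (as `‖B‖ ≤ 1`) `‖B^j x - x‖ ≤ j ε ‖x‖`. 40 lines. -/
def TaskDisc : Prop := ∀ (E : Type) [NormedAddCommGroup E] [NormedSpace ℂ E] (B : E →L[ℂ] E) (m : ℕ)
  (P : ℕ → E →L[ℂ] E), 0 < m → Graded E B m P → (∀ x, ‖B x‖ ≤ ‖x‖) →
  (∀ ε : ℝ, 0 < ε → ∃ x : E, x ≠ 0 ∧ ‖B x - x‖ ≤ ε * ‖x‖) →
  ∀ l : ℂ, l ≠ 0 → ‖l‖ < 1 → l ∈ spectrum ℂ B

/-- the degree projections on `V n χ`: `(P d x) i = x i` if `∑ i = d`, else `0`. 60 lines. -/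
def TaskProj : Prop := ∀ (n : ℕ) (χ : Equiv.Perm (Fin n) →* ℤˣ), ∃ P : ℕ → V n χ →L[ℂ] V n χ,
  (∀ d (x : V n χ) i, ((P d x : H n) : (Fin n → ℕ) → ℂ) i =
    if ∑ j, i j = d then ((x : H n) : (Fin n → ℕ) → ℂ) i else 0) ∧
  (∀ x, HasSum (fun d => ‖P d x‖ ^ 2) (‖x‖ ^ 2)) ∧
  (∀ d e x, P d (P e x) = if d = e then P d x else 0)

/-- Uses TaskProj. `act` raises the degree by `∑ k = m`. 40 lines. -/
def TaskGraded : Prop := ∀ (n : ℕ) (k : Fin n → ℤ) (m : ℕ) (χ : Equiv.Perm (Fin n) →* ℤˣ)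
  (B : V n χ →L[ℂ] V n χ), IsOp k χ B → ∑ j, k j = (m : ℤ) →
  ∃ P : ℕ → V n χ →L[ℂ] V n χ, Graded (V n χ) B m P

/-- `B(k)* = B(-k)`. First `∑_i conj (act k x i) y i = ∑_i conj (x i) act (-k) y i` (reindex).
50-60 lines. -/
def TaskAdj : Prop := ∀ (n : ℕ) (k : Fin n → ℤ) (χ : Equiv.Perm (Fin n) →* ℤˣ)
  (B C : V n χ →L[ℂ] V n χ), IsOp k χ B → IsOp (-k) χ C → ∀ x y : V n χ,
  (inner ℂ (B x) y : ℂ) = inner ℂ x (C y)

/-- Abstract: `spectrum.map_star` with `C = adjoint B`. 15 lines. -/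
def TaskAdjSpec : Prop := ∀ (E : Type) [NormedAddCommGroup E] [InnerProductSpace ℂ E] [CompleteSpace E]
  (B C : E →L[ℂ] E), (∀ x y, (inner ℂ (B x) y : ℂ) = inner ℂ x (C y)) →
  ∀ l : ℂ, l ∈ spectrum ℂ B ↔ (starRingEnd ℂ) l ∈ spectrum ℂ C

/-! ### the convex hull of the symbol -/

/-- Finite Fourier analysis: `x` supported in `[0, M)^n`, `N ≥ M + K`, `|k j| ≤ K`. Expand
`|X s|² = ∑_{a,b} x a conj (x b) e(⟨s, a - b⟩)`; `∑_s e(⟨s, k + a - b⟩) = N^n` if `b = a + k` and `0` otherwise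
(product of geometric sums). 70-80 lines. -/
def TaskFourier : Prop := ∀ (n M K N : ℕ) (k : Fin n → ℤ) (x : (Fin n → ℕ) → ℂ),
  (∀ j, |k j| ≤ (K : ℤ)) → M + K < N → (∀ i, (∃ j, M ≤ i j) → x i = 0) →
  (N : ℂ) ^ n * ∑ i : Fin n → Fin N, (starRingEnd ℂ) (x (fun j => (i j : ℕ))) *
      act k x (fun j => (i j : ℕ)) =
    ∑ s : Fin n → Fin N,
      Complex.exp (((∑ j, (k j : ℝ) * (2 * Real.pi * ((s j : ℕ) : ℝ) / N) : ℝ) : ℂ) * Complex.I) *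
      (‖∑ a : Fin n → Fin N, x (fun j => (a j : ℕ)) *
        Complex.exp (((∑ j, ((a j : ℕ) : ℝ) * (2 * Real.pi * ((s j : ℕ) : ℝ) / N) : ℝ) : ℂ) *
          Complex.I)‖ ^ 2 : ℝ)

/-- Uses TaskFourier (for all `k ∘ π` and for `k = 0`, where `act 0 x = x`). 50 lines. -/
def TaskNumFin : Prop := ∀ (n M K N : ℕ) (k : Fin n → ℤ) (x : (Fin n → ℕ) → ℂ) (c : ℂ) (α : ℝ),
  (∀ j, |k j| ≤ (K : ℤ)) → M + K < N → (∀ i, (∃ j, M ≤ i j) → x i = 0) →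
  (∀ t : Fin n → ℝ, (c * phi k t).re ≤ α) →
  (c * ∑ i : Fin n → Fin N, (starRingEnd ℂ) (x (fun j => (i j : ℕ))) *
      symAct k x (fun j => (i j : ℕ))).re ≤ α * ∑ i : Fin n → Fin N, ‖x (fun j => (i j : ℕ))‖ ^ 2

/-- Uses TaskNumFin and density of the finitely supported vectors in `V n χ` (cut off at the box
`[0, M)^n`, which keeps the symmetry). 60-70 lines. -/
def TaskNum : Prop := ∀ (n : ℕ) (k : Fin n → ℤ) (χ : Equiv.Perm (Fin n) →* ℤˣ)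
  (B : V n χ →L[ℂ] V n χ), IsOp k χ B → ∀ (c : ℂ) (α : ℝ),
  (∀ t : Fin n → ℝ, (c * phi k t).re ≤ α) → ∀ x : V n χ,
  (c * (inner ℂ x (B x) : ℂ)).re ≤ α * ‖x‖ ^ 2

/-- Abstract Lax-Milgram: bounded below, so closed range; the range has trivial orthogonal complement.
30 lines. -/
def TaskCoer : Prop := ∀ (E : Type) [NormedAddCommGroup E] [InnerProductSpace ℂ E] [CompleteSpace E]
  (C : E →L[ℂ] E) (δ : ℝ), 0 < δ → (∀ x, δ * ‖x‖ ^ 2 ≤ (inner ℂ x (C x) : ℂ).re) → IsUnit C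

/-- `phi` is continuous and `2π`-periodic in every variable. 30 lines. -/
def TaskCompact : Prop := ∀ (n : ℕ) (k : Fin n → ℤ), IsCompact (Set.range (phi k))

/-- Uses TaskCoer. Separate `l` from the compact convex set (`geometric_hahn_banach_compact_closed` or
`geometric_hahn_banach_closed_point`); a real functional on `ℂ` is `z ↦ (c z).re`. 40 lines. -/
def TaskHull : Prop := ∀ (E : Type) [NormedAddCommGroup E] [InnerProductSpace ℂ E] [CompleteSpace E]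
  (B : E →L[ℂ] E) (R : Set ℂ), IsCompact R →
  (∀ (c : ℂ) (α : ℝ), (∀ z ∈ R, (c * z).re ≤ α) → ∀ x : E,
    (c * (inner ℂ x (B x) : ℂ)).re ≤ α * ‖x‖ ^ 2) →
  spectrum ℂ B ⊆ convexHull ℝ R

/-- For a symmetric multiset of exponents the symbol is real (reindex), its range is connected and
compact and contains `phi 0 = 1`, and `|phi| ≤ 1`. `a ≤ 0`: for `N > max |k j|` the sum over `s < N` of
`phi (2 π s / N, 0, …, 0)` is zero. 60 lines. -/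
def TaskInterval : Prop := ∀ (n : ℕ), 1 ≤ n → ∀ (k : Fin n → ℤ), (∀ j, k j ≠ 0) →
  (∃ π : Equiv.Perm (Fin n), ∀ j, k (π j) = - k j) →
  ∃ a : ℝ, -1 ≤ a ∧ a ≤ 0 ∧ Set.range (phi k) = Complex.ofReal '' Set.Icc a 1

/-- `phi (π / 2^v, 0, …, 0) = -1`. 20 lines. -/
def TaskOdd : Prop := ∀ (n : ℕ), 1 ≤ n → ∀ (k : Fin n → ℤ) (v : ℕ),
  (∀ j, ∃ o : ℤ, Odd o ∧ k j = 2 ^ v * o) → (-1 : ℂ) ∈ Set.range (phi k)

end Pool.Agent.Q192.SH
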