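import Pool.Agent.Q192.SH.Stmts

namespace Pool.Agent.Q192.SH.TaskActPf

open Pool.Agent.Q192.SH

private def dom {n : ℕ} (k : Fin n → ℤ) : Set (Fin n → ℕ) := {i | ∀ j, k j ≤ (i j : ℤ)}

private def sh {n : ℕ} (k : Fin n → ℤ) (i : Fin n → ℕ) : Fin n → ℕ := fun j => ((i j : ℤ) - k j).toNat

private theorem sh_inj {n : ℕ} (k : Fin n → ℤ) :
    Function.Injective (fun i : dom k => sh k i.1) := by
  rintro ⟨i, hi⟩ ⟨i', hi'⟩ h
  apply Subtype.ext
  funext j
  have h1 := congrFun h j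
  have h2 := hi j
  have h3 := hi' j
  change ((i j : ℤ) - k j).toNat = ((i' j : ℤ) - k j).toNat at h1
  change i j = i' j
  omega

private theorem act_eq {n : ℕ} (k : Fin n → ℤ) (x : (Fin n → ℕ) → ℂ) (i : Fin n → ℕ) :
    ‖act k x i‖ ^ (2 : ℝ) = (dom k).indicator (fun i => ‖x (sh k i)‖ ^ (2 : ℝ)) i := by
  classical
  by_cases h : i ∈ dom k
  · rw [Set.indicator_of_mem h]
    have h' : ∀ j, k j ≤ (i j : ℤ) := h
    rw [act, if_pos h']
    rfl
  · rw [Set.indicator_of_notMem h]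
    have h' : ¬ ∀ j, k j ≤ (i j : ℤ) := h
    rw [act, if_neg h']
    simp

private theorem summ {n : ℕ} (k : Fin n → ℤ) (x : (Fin n → ℕ) → ℂ)
    (hx : Summable fun i => ‖x i‖ ^ (2 : ℝ)) :
    Summable (fun i => ‖act k x i‖ ^ (2 : ℝ)) ∧
      ∑' i, ‖act k x i‖ ^ (2 : ℝ) ≤ ∑' i, ‖x i‖ ^ (2 : ℝ) := by
  have h1 : Summable (fun i : dom k => ‖x (sh k i.1)‖ ^ (2 : ℝ)) := hx.comp_injective (sh_inj k)
  have e : (fun i => ‖act k x i‖ ^ (2 : ℝ)) = (dom k).indicator (fun i => ‖x (sh k i)‖ ^ (2 : ℝ)) :=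
    funext (act_eq k x)
  rw [e]
  refine ⟨summable_subtype_iff_indicator.1 h1, ?_⟩
  rw [← tsum_subtype (dom k) (fun i => ‖x (sh k i)‖ ^ (2 : ℝ))]
  exact tsum_comp_le_tsum_of_inj hx (fun a => Real.rpow_nonneg (norm_nonneg _) _) (sh_inj k)

private theorem two : (2 : ENNReal).toReal = (2 : ℝ) := by simp

private theorem mem {n : ℕ} (k : Fin n → ℤ) (x : H n) : Memℓp (act k (x : (Fin n → ℕ) → ℂ)) 2 := by
  have hx : Summable fun i => ‖(x : (Fin n → ℕ) → ℂ) i‖ ^ (2 : ℝ) := by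
    have := (memℓp_gen_iff (p := 2) (by simp)).1 (lp.memℓp x)
    rwa [two] at this
  rw [memℓp_gen_iff (by simp), two]
  exact (summ k _ hx).1

private theorem nrm {n : ℕ} (k : Fin n → ℤ) (x : H n) : ‖(⟨act k (x : (Fin n → ℕ) → ℂ), mem k x⟩ : H n)‖ ≤ ‖x‖ := by
  have hx : Summable fun i => ‖(x : (Fin n → ℕ) → ℂ) i‖ ^ (2 : ℝ) := by
    have := (memℓp_gen_iff (p := 2) (by simp)).1 (lp.memℓp x)
    rwa [two] at this
  have h1 := lp.norm_rpow_eq_tsum (p := 2) (by simp) (⟨act k (x : (Fin n → ℕ) → ℂ), mem k x⟩ : H n)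
  have h2 := lp.norm_rpow_eq_tsum (p := 2) (by simp) x
  rw [two] at h1 h2
  have h3 := (summ k _ hx).2
  have h4 : ‖(⟨act k (x : (Fin n → ℕ) → ℂ), mem k x⟩ : H n)‖ ^ (2 : ℝ) ≤ ‖x‖ ^ (2 : ℝ) := by
    rw [h1, h2]
    exact h3
  exact (Real.rpow_le_rpow_iff (norm_nonneg _) (norm_nonneg _) (by norm_num)).1 h4

theorem main : Pool.Agent.Q192.SH.TaskAct := by
  intro n k
  let T : H n →ₗ[ℂ] H n :=
    { toFun := fun x => ⟨act k (x : (Fin n → ℕ) → ℂ), mem k x⟩
      map_add' := by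
        intro x y
        apply lp.ext
        funext i
        change act k ((x + y : H n) : (Fin n → ℕ) → ℂ) i = act k x i + act k y i
        unfold act
        split_ifs
        · rw [lp.coeFn_add, Pi.add_apply]
        · rw [add_zero]
      map_smul' := by
        intro c x
        apply lp.ext
        funext i
        change act k ((c • x : H n) : (Fin n → ℕ) → ℂ) i = c * act k x i
        unfold act
        split_ifs
        · rw [lp.coeFn_smul, Pi.smul_apply, smul_eq_mul]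
        · rw [mul_zero] }
  refine ⟨T.mkContinuous 1 (fun x => ?_), fun x i => rfl, fun x => ?_⟩
  · rw [one_mul]
    exact nrm k x
  · exact nrm k x

end Pool.Agent.Q192.SH.TaskActPf
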