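import Pool.Agent.Q192.SH.Stmts

set_option autoImplicit false

open Filter Topology Pool.Agent.Q192.SH

namespace Pool.Agent.Q192.SH.TaskAdjPf

def S {n : ℕ} (k : Fin n → ℤ) : Set (Fin n → ℕ) := {i | ∀ j, k j ≤ (i j : ℤ)}

def sh {n : ℕ} (k : Fin n → ℤ) (i : Fin n → ℕ) : Fin n → ℕ := fun j => ((i j : ℤ) - k j).toNat

theorem sh_mem {n : ℕ} (k : Fin n → ℤ) (i : Fin n → ℕ) (h : i ∈ S k) : sh k i ∈ S (-k) := by
  intro j
  have := h j
  simp only [sh, Pi.neg_apply]
  omega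

theorem sh_sh {n : ℕ} (k : Fin n → ℤ) (i : Fin n → ℕ) (h : i ∈ S k) : sh (-k) (sh k i) = i := by
  funext j
  have := h j
  simp only [sh, Pi.neg_apply]
  omega

def eqv {n : ℕ} (k : Fin n → ℤ) : S k ≃ S (-k) where
  toFun i := ⟨sh k i, sh_mem k i i.2⟩
  invFun i := ⟨sh (-k) i, by have := sh_mem (-k) i i.2; rwa [neg_neg] at this⟩
  left_inv i := Subtype.ext (sh_sh k i i.2)
  right_inv i := Subtype.ext (by have := sh_sh (-k) i i.2; rwa [neg_neg] at this)

theorem act_eq {n : ℕ} (k : Fin n → ℤ) (x : (Fin n → ℕ) → ℂ) (i : Fin n → ℕ) :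
    act k x i = (S k).indicator (fun i => x (sh k i)) i := by
  by_cases h : i ∈ S k
  · rw [Set.indicator_of_mem h]
    unfold act
    have h' : ∀ j, k j ≤ (i j : ℤ) := h
    rw [if_pos h']
    rfl
  · rw [Set.indicator_of_notMem h]
    unfold act
    have h' : ¬ ∀ j, k j ≤ (i j : ℤ) := h
    rw [if_neg h']

theorem act_adj {n : ℕ} (k : Fin n → ℤ) (x y : (Fin n → ℕ) → ℂ) :
    ∑' i, (starRingEnd ℂ) (act k x i) * y i = ∑' i, (starRingEnd ℂ) (x i) * act (-k) y i := by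
  have h1 : ∀ i, (starRingEnd ℂ) (act k x i) * y i =
      (S k).indicator (fun i => (starRingEnd ℂ) (x (sh k i)) * y i) i := by
    intro i
    rw [act_eq]
    by_cases h : i ∈ S k
    · rw [Set.indicator_of_mem h, Set.indicator_of_mem h]
    · rw [Set.indicator_of_notMem h, Set.indicator_of_notMem h, map_zero, zero_mul]
  have h2 : ∀ i, (starRingEnd ℂ) (x i) * act (-k) y i =
      (S (-k)).indicator (fun i => (starRingEnd ℂ) (x i) * y (sh (-k) i)) i := by
    intro i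
    rw [act_eq]
    by_cases h : i ∈ S (-k)
    · rw [Set.indicator_of_mem h, Set.indicator_of_mem h]
    · rw [Set.indicator_of_notMem h, Set.indicator_of_notMem h, mul_zero]
  rw [tsum_congr h1, tsum_congr h2, ← tsum_subtype, ← tsum_subtype,
    ← Equiv.tsum_eq (eqv k)]
  apply tsum_congr
  intro i
  show _ = (starRingEnd ℂ) (x (sh k i)) * y (sh (-k) (sh k i))
  rw [sh_sh k i i.2]

theorem sq_act {n : ℕ} (k : Fin n → ℤ) (x : (Fin n → ℕ) → ℂ) (hx : Summable fun i => ‖x i‖ ^ 2) :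
    Summable fun i => ‖act k x i‖ ^ 2 := by
  have h1 : (fun i => ‖act k x i‖ ^ 2) = (S k).indicator (fun i => ‖x (sh k i)‖ ^ 2) := by
    funext i
    rw [act_eq]
    by_cases h : i ∈ S k
    · rw [Set.indicator_of_mem h, Set.indicator_of_mem h]
    · rw [Set.indicator_of_notMem h, Set.indicator_of_notMem h]
      simp
  rw [h1, ← summable_subtype_iff_indicator]
  have hinj : Function.Injective (fun i : S k => sh k i) := by
    intro a b hab
    have h2 : sh k a = sh k b := hab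
    have h3 := sh_sh k a a.2
    have h4 := sh_sh k b b.2
    apply Subtype.ext
    rw [← h3, ← h4, h2]
  exact hx.comp_injective hinj

theorem summable_mul {n : ℕ} (u v : (Fin n → ℕ) → ℂ) (hu : Summable fun i => ‖u i‖ ^ 2)
    (hv : Summable fun i => ‖v i‖ ^ 2) : Summable fun i => (starRingEnd ℂ) (u i) * v i := by
  refine Summable.of_norm_bounded (hu.add hv) ?_
  intro i
  rw [norm_mul, RCLike.norm_conj]
  nlinarith [sq_nonneg (‖u i‖ - ‖v i‖), sq_nonneg (‖u i‖), sq_nonneg (‖v i‖)]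

theorem sq_lp {n : ℕ} (x : H n) : Summable fun i => ‖(x : (Fin n → ℕ) → ℂ) i‖ ^ 2 := by
  have h := (memℓp_gen_iff (p := (2 : ENNReal)) (by norm_num)).1 (lp.memℓp x)
  simpa using h

theorem inner_lp {n : ℕ} (x y : H n) : (inner ℂ x y : ℂ) =
    ∑' i, (starRingEnd ℂ) ((x : (Fin n → ℕ) → ℂ) i) * (y : (Fin n → ℕ) → ℂ) i := by
  rw [lp.inner_eq_tsum]
  apply tsum_congr
  intro i
  rw [RCLike.inner_apply]
  ring

theorem main : TaskAdj := by
  intro n k χ B C hB hC x y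
  rw [Submodule.coe_inner, Submodule.coe_inner, inner_lp, inner_lp]
  have hx := sq_lp (x : H n)
  have hy := sq_lp (y : H n)
  have h1 : ∀ i, (starRingEnd ℂ) (((B x : H n) : (Fin n → ℕ) → ℂ) i) * ((y : H n) : (Fin n → ℕ) → ℂ) i =
      ((n.factorial : ℂ))⁻¹ * ∑ π : Equiv.Perm (Fin n),
        (starRingEnd ℂ) (act (k ∘ π) ((x : H n) : (Fin n → ℕ) → ℂ) i) * ((y : H n) : (Fin n → ℕ) → ℂ) i := by
    intro i
    rw [hB x i]
    unfold symAct
    rw [map_mul, map_inv₀, map_sum, Complex.conj_natCast, mul_assoc, Finset.sum_mul]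
  have h2 : ∀ i, (starRingEnd ℂ) (((x : H n) : (Fin n → ℕ) → ℂ) i) * ((C y : H n) : (Fin n → ℕ) → ℂ) i =
      ((n.factorial : ℂ))⁻¹ * ∑ π : Equiv.Perm (Fin n),
        (starRingEnd ℂ) (((x : H n) : (Fin n → ℕ) → ℂ) i) *
          act (-(k ∘ π)) ((y : H n) : (Fin n → ℕ) → ℂ) i := by
    intro i
    rw [hC y i]
    unfold symAct
    rw [mul_left_comm, Finset.mul_sum]
    rfl
  rw [tsum_congr h1, tsum_congr h2, tsum_mul_left, tsum_mul_left]
  congr 1
  rw [Summable.tsum_finsetSum (fun π _ => summable_mul _ _ (sq_act _ _ hx) hy),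
    Summable.tsum_finsetSum (fun π _ => summable_mul _ _ hx (sq_act _ _ hy))]
  apply Finset.sum_congr rfl
  intro π _
  exact act_adj (k ∘ π) _ _

end Pool.Agent.Q192.SH.TaskAdjPf
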