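import Pool.Agent.Q192.SH.Stmts

set_option autoImplicit false

namespace Pool.Agent.Q192.SH.TaskAdjSpecPf

open Pool.Agent.Q192.SH

theorem main : Pool.Agent.Q192.SH.TaskAdjSpec := by
  intro E _ _ _ B C h l
  have hC : C = star B := by
    rw [ContinuousLinearMap.star_eq_adjoint, ContinuousLinearMap.eq_adjoint_iff]
    intro x y
    have h1 := congrArg (starRingEnd ℂ) (h y x)
    rw [inner_conj_symm, inner_conj_symm] at h1
    exact h1.symm
  rw [hC, spectrum.map_star, Set.mem_star]
  simp

end Pool.Agent.Q192.SH.TaskAdjSpecPf
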