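import Pool.Agent.Q192.SH.Stmts

set_option autoImplicit false

namespace Pool.Agent.Q192.SH.TaskAllPf

open Pool.Agent.Q192.SH

theorem main : Pool.Agent.Q192.SH.TaskAll := by
  intro E _ _ B m P hm hG C j hC hhom y
  have hs : ∀ (k : ℕ) (z : E), (B ^ (k + 1)) z = B ((B ^ k) z) := by
    intro k z
    rw [pow_succ']
    rfl
  have hup : ∀ (k d : ℕ), P (d + k * m) ((B ^ k) y) = (B ^ k) (P d y) := by
    intro k
    induction k with
    | zero => intro d; simp
    | succ k ih =>
      intro d
      rw [hs, hs, show d + (k + 1) * m = (d + k * m) + m by ring, hG.up, ih]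
  have hlow : ∀ (k e : ℕ), e < k * m → P e ((B ^ k) y) = 0 := by
    intro k
    induction k with
    | zero => intro e he; simp at he
    | succ k ih =>
      intro e he
      rw [hs]
      rcases Nat.lt_or_ge e m with h | h
      · exact hG.low e _ h
      · obtain ⟨e', rfl⟩ : ∃ e', e = e' + m := ⟨e - m, by omega⟩
        rw [hG.up, ih e' (by have : (k + 1) * m = k * m + m := by ring
                             omega), map_zero]
  have h1 := hG.sq ((B ^ j) y)
  have h2 := (hasSum_nat_add_iff' (j * m)).2 h1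
  have h3 : ∑ i ∈ Finset.range (j * m), ‖P i ((B ^ j) y)‖ ^ 2 = 0 := by
    apply Finset.sum_eq_zero
    intro i hi
    rw [hlow j i (Finset.mem_range.1 hi), norm_zero]
    norm_num
  rw [h3, sub_zero] at h2
  have h4 : HasSum (fun d => C ^ 2 * ‖P d y‖ ^ 2) (C ^ 2 * ‖y‖ ^ 2) := (hG.sq y).mul_left _
  have h5 : ‖(B ^ j) y‖ ^ 2 ≤ C ^ 2 * ‖y‖ ^ 2 := by
    refine hasSum_le ?_ h2 h4
    intro d
    rw [hup, ← mul_pow]
    have h6 : P d (P d y) = P d y := by rw [hG.proj]; simp
    exact pow_le_pow_left₀ (norm_nonneg _) (hhom d (P d y) h6) 2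
  rw [← mul_pow] at h5
  exact le_of_pow_le_pow_left₀ two_ne_zero (by positivity) h5

end Pool.Agent.Q192.SH.TaskAllPf
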