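import Pool.Agent.Q192.SH.Stmts

set_option autoImplicit false

open Filter Topology

namespace Pool.Agent.Q192.SH.TaskAll105

open Pool.Agent.Q192.SH

theorem main : Pool.Agent.Q192.SH.TaskAll := by
  intro E _ _ B m P hm hG C j hC h y
  have hup : ∀ (j : ℕ) (d : ℕ) (y : E), P (d + j * m) ((B ^ j) y) = (B ^ j) (P d y) := by
    intro j
    induction j with
    | zero => intro d y; simp
    | succ j ih =>
      intro d y
      have h1 : d + (j + 1) * m = (d + j * m) + m := by ring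
      rw [h1, pow_succ', mul_apply_eq_comp, mul_apply_eq_comp, hG.up, ih]
  have hlow : ∀ (j : ℕ) (e : ℕ) (y : E), e < j * m → P e ((B ^ j) y) = 0 := by
    intro j
    induction j with
    | zero => intro e y he; simp at he
    | succ j ih =>
      intro e y he
      rw [pow_succ', mul_apply_eq_comp]
      by_cases hem : e < m
      · exact hG.low e _ hem
      · obtain ⟨e', rfl⟩ : ∃ e', e = e' + m := ⟨e - m, by omega⟩
        have h2 : (j + 1) * m = j * m + m := by ring
        rw [hG.up, ih e' y (by omega), map_zero]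
  have h1 := hG.sq ((B ^ j) y)
  have h2 := (hasSum_nat_add_iff' (j * m)).2 h1
  have h3 : ∑ i ∈ Finset.range (j * m), ‖P i ((B ^ j) y)‖ ^ 2 = 0 := by
    refine Finset.sum_eq_zero fun i hi => ?_
    rw [hlow j i y (Finset.mem_range.1 hi), norm_zero]
    ring
  rw [h3, sub_zero] at h2
  have h4 := (hG.sq y).mul_left (C ^ 2)
  have h5 : ‖(B ^ j) y‖ ^ 2 ≤ C ^ 2 * ‖y‖ ^ 2 := by
    refine hasSum_le (fun d => ?_) h2 h4
    rw [hup j d y]
    have h6 := h d (P d y) (by rw [hG.proj]; simp)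
    calc ‖(B ^ j) (P d y)‖ ^ 2 ≤ (C * ‖P d y‖) ^ 2 := pow_le_pow_left₀ (norm_nonneg _) h6 2
      _ = C ^ 2 * ‖P d y‖ ^ 2 := by ring
  have h6 : ‖(B ^ j) y‖ ^ 2 ≤ (C * ‖y‖) ^ 2 := by
    rw [mul_pow]; exact h5
  exact (pow_le_pow_iff_left₀ (norm_nonneg _) (mul_nonneg hC (norm_nonneg _)) two_ne_zero).1 h6

end Pool.Agent.Q192.SH.TaskAll105
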