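import Pool.Agent.Q192.SH.Stmts

namespace Pool.Agent.Q192.SH.TaskAllPf

open Pool.Agent.Q192.SH

theorem main : Pool.Agent.Q192.SH.TaskAll := by
  intro E _ _ B m P hm hG C j hC hhom y
  -- degrees
  have up : ∀ (i : ℕ) (d : ℕ) (x : E), P (d + i * m) ((B ^ i) x) = (B ^ i) (P d x) := by
    intro i
    induction i with
    | zero => intro d x; simp
    | succ i ih =>
      intro d x
      rw [pow_succ', ContinuousLinearMap.mul_apply, ContinuousLinearMap.mul_apply,
        show d + (i + 1) * m = (d + i * m) + m by ring, hG.up, ih]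
  have low : ∀ (i : ℕ) (d : ℕ) (x : E), d < i * m → P d ((B ^ i) x) = 0 := by
    intro i
    induction i with
    | zero => intro d x h; simp at h
    | succ i ih =>
      intro d x h
      rw [pow_succ', ContinuousLinearMap.mul_apply]
      rcases lt_or_ge d m with h1 | h1
      · exact hG.low d _ h1
      · obtain ⟨e, rfl⟩ : ∃ e, d = e + m := ⟨d - m, by omega⟩
        rw [hG.up, ih e x (by nlinarith), map_zero]
  have h1 := hG.sq ((B ^ j) y)
  have h2 : HasSum (fun d => ‖P (d + j * m) ((B ^ j) y)‖ ^ 2) (‖(B ^ j) y‖ ^ 2) := by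
    have h3 := (hasSum_nat_add_iff' (f := fun d => ‖P d ((B ^ j) y)‖ ^ 2) (j * m)).mpr h1
    have h4 : ∑ i ∈ Finset.range (j * m), ‖P i ((B ^ j) y)‖ ^ 2 = 0 := by
      apply Finset.sum_eq_zero
      intro i hi
      rw [low j i y (Finset.mem_range.mp hi), norm_zero]; norm_num
    rw [h4, sub_zero] at h3
    exact h3
  have h5 : HasSum (fun d => C ^ 2 * ‖P d y‖ ^ 2) (C ^ 2 * ‖y‖ ^ 2) := (hG.sq y).mul_left _
  have h6 : ‖(B ^ j) y‖ ^ 2 ≤ C ^ 2 * ‖y‖ ^ 2 := by
    refine hasSum_le ?_ h2 h5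
    intro d
    rw [up j d y, ← mul_pow]
    refine pow_le_pow_left₀ (norm_nonneg _) (hhom d (P d y) ?_) 2
    rw [hG.proj, if_pos rfl]
  rw [← mul_pow] at h6
  exact (pow_le_pow_iff_left₀ (norm_nonneg _) (by positivity) two_ne_zero).mp h6

end Pool.Agent.Q192.SH.TaskAllPf
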