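import Pool.Agent.Q192.SH.Stmts

open Filter Topology

namespace Pool.Agent.Q192.SH.TaskApproxPf

open Pool.Agent.Q192.SH

def Box (n M : ℕ) : Finset (Fin n → ℕ) := Fintype.piFinset (fun _ => Finset.range M)

theorem mem_Box {n M : ℕ} {i : Fin n → ℕ} : i ∈ Box n M ↔ ∀ j, i j < M := by
  simp [Box]

theorem memlp {n : ℕ} (f : (Fin n → ℕ) → ℂ) (F : Finset (Fin n → ℕ)) (h : ∀ i, i ∉ F → f i = 0) :
    Memℓp f 2 := by
  apply memℓp_gen
  apply summable_of_ne_finset_zero (s := F)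
  intro i hi
  rw [h i hi]
  simp

theorem normsq {n : ℕ} (f : H n) (F : Finset (Fin n → ℕ))
    (h : ∀ i, i ∉ F → (f : (Fin n → ℕ) → ℂ) i = 0) :
    ‖f‖ ^ 2 = ∑ i ∈ F, ‖(f : (Fin n → ℕ) → ℂ) i‖ ^ 2 := by
  have h1 := lp.norm_rpow_eq_tsum (p := 2) (by simp) f
  simp only [ENNReal.toReal_ofNat, Real.rpow_ofNat] at h1
  rw [h1]
  apply tsum_eq_sum
  intro i hi
  rw [h i hi]
  simp

theorem phi_le {n : ℕ} (k : Fin n → ℤ) (t : Fin n → ℝ) : ‖phi k t‖ ≤ 1 := by
  unfold phi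
  rw [norm_mul, norm_inv, Complex.norm_natCast]
  have h1 : ‖∑ π : Equiv.Perm (Fin n),
      Complex.exp (((∑ j, (k (π j) : ℝ) * t j : ℝ) : ℂ) * Complex.I)‖ ≤ (n.factorial : ℝ) := by
    refine (norm_sum_le _ _).trans ?_
    have : ∀ π ∈ (Finset.univ : Finset (Equiv.Perm (Fin n))), ‖Complex.exp (((∑ j, (k (π j) : ℝ) * t j : ℝ) : ℂ) * Complex.I)‖ ≤ (1:ℝ) := by
      intro π _
      rw [Complex.norm_exp_ofReal_mul_I]
    refine (Finset.sum_le_card_nsmul _ _ _ this).trans ?_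
    rw [Finset.card_univ, Fintype.card_perm, Fintype.card_fin]
    simp
  have h2 : (0 : ℝ) < n.factorial := by exact_mod_cast n.factorial_pos
  rw [inv_mul_le_iff₀ h2, mul_one]
  exact h1

theorem main (hS : TaskVecSym) (hV : TaskVecVal) (hI : TaskVecInt) (hB : TaskSymBd) (hBad : TaskBad) :
    TaskApprox := by
  intro n hn k χ B hOp t ε hε
  obtain ⟨K, hK⟩ : ∃ K : ℕ, ∀ j, |k j| ≤ (K : ℤ) := by
    refine ⟨∑ j, (k j).natAbs, fun j => ?_⟩
    rw [Int.abs_eq_natAbs]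
    exact_mod_cast Finset.single_le_sum (f := fun j => (k j).natAbs) (fun _ _ => Nat.zero_le _) (Finset.mem_univ j)
  set C : ℝ := 4 * (n * (n + 1) * (2 * K + 1)) * (n + 1) ^ (n - 1) with hC
  obtain ⟨N0, hN0⟩ := exists_nat_ge (C / ε ^ 2)
  set N : ℕ := N0 + K + 1 with hN
  have hNC : C ≤ ε ^ 2 * N := by
    have h1 : C ≤ ε ^ 2 * N0 := by
      rw [div_le_iff₀ (by positivity)] at hN0
      linarith
    have h2 : (N0 : ℝ) ≤ N := by
      rw [hN]; push_cast
      have : (0:ℝ) ≤ K := Nat.cast_nonneg _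
      linarith
    have h3 : 0 ≤ ε ^ 2 := by positivity
    nlinarith
  have hNpos : 0 < N := by omega
  set L : ℕ := n * N + K with hL
  have hvz : ∀ i, i ∉ Box n (n * N) → vec χ N t i = 0 := by
    intro i hi
    rw [mem_Box] at hi
    push Not at hi
    exact (hV n χ N t i).2.1 hi
  have hvb : ∀ i, ‖vec χ N t i‖ ≤ 1 := fun i => (hV n χ N t i).1
  let x0 : H n := ⟨vec χ N t, memlp _ _ hvz⟩
  have hx0 : ∀ i, (x0 : (Fin n → ℕ) → ℂ) i = vec χ N t i := fun i => rfl
  let x : V n χ := ⟨x0, fun π i => hS n χ N t π i⟩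
  have hxc : ((x : H n) : (Fin n → ℕ) → ℂ) = vec χ N t := rfl
  -- lower bound
  have hlow : (N : ℝ) ^ n ≤ ‖x‖ ^ 2 := by
    have h1 : ‖x‖ ^ 2 = ∑ i ∈ Box n (n * N), ‖vec χ N t i‖ ^ 2 := by
      have := normsq x0 (Box n (n * N)) hvz
      exact this
    rw [h1]
    set T : Finset (Fin n → ℕ) := Fintype.piFinset (fun j : Fin n => Finset.Ico ((j : ℕ) * N) (((j : ℕ) + 1) * N)) with hT
    have hTsub : T ⊆ Box n (n * N) := by
      intro i hi
      rw [mem_Box]
      intro j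
      rw [hT, Fintype.mem_piFinset] at hi
      have h2 := hi j
      rw [Finset.mem_Ico] at h2
      have h3 : ((j : ℕ) + 1) * N ≤ n * N := Nat.mul_le_mul_right _ j.2
      omega
    have hTcard : T.card = N ^ n := by
      rw [hT, Fintype.card_piFinset]
      have : ∀ j : Fin n, (Finset.Ico ((j : ℕ) * N) (((j : ℕ) + 1) * N)).card = N := by
        intro j
        rw [Nat.card_Ico, add_mul, one_mul]
        omega
      simp only [this]
      simp
    calc (N : ℝ) ^ n = ∑ i ∈ T, (1 : ℝ) := by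
          rw [Finset.sum_const, hTcard]; simp
      _ = ∑ i ∈ T, ‖vec χ N t i‖ ^ 2 := by
          apply Finset.sum_congr rfl
          intro i hi
          rw [hT, Fintype.mem_piFinset] at hi
          rw [(hV n χ N t i).2.2 (fun j => by
            have := hi j
            rw [Finset.mem_Ico] at this
            exact this)]
          norm_num
      _ ≤ ∑ i ∈ Box n (n * N), ‖vec χ N t i‖ ^ 2 := by
          apply Finset.sum_le_sum_of_subset_of_nonneg hTsub
          intro i _ _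
          positivity
  -- the difference
  have hy : ∀ i, (((B x - phi k t • x : V n χ) : H n) : (Fin n → ℕ) → ℂ) i =
      symAct k (vec χ N t) i - phi k t * vec χ N t i := by
    intro i
    rw [Submodule.coe_sub, lp.coeFn_sub, Pi.sub_apply, hOp x i, Submodule.coe_smul, lp.coeFn_smul,
      Pi.smul_apply, smul_eq_mul, hxc]
  have hsb := hB n k K (n * N) (vec χ N t) hK hvb (fun i hi => (hV n χ N t i).2.1 hi)
  have hyb : ∀ i, ‖symAct k (vec χ N t) i - phi k t * vec χ N t i‖ ≤ 2 := by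
    intro i
    refine (norm_sub_le _ _).trans ?_
    have h1 := hsb.1 i
    have h2 : ‖phi k t * vec χ N t i‖ ≤ 1 := by
      rw [norm_mul]
      exact mul_le_one₀ (phi_le k t) (norm_nonneg _) (hvb i)
    linarith
  classical
  let bad : (Fin n → ℕ) → Prop := fun i => ∃ (j : Fin n) (b : ℕ), b ≤ n ∧
    |((i j : ℕ) : ℤ) - ((b * N : ℕ) : ℤ)| ≤ (K : ℤ)
  have hyz : ∀ i, i ∉ (Box n L).filter bad → symAct k (vec χ N t) i - phi k t * vec χ N t i = 0 := by
    intro i hi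
    rw [Finset.mem_filter, not_and_or] at hi
    rcases hi with hi | hi
    · rw [mem_Box] at hi
      push Not at hi
      obtain ⟨j, hj⟩ := hi
      rw [hsb.2 i ⟨j, hj⟩, (hV n χ N t i).2.1 ⟨j, by omega⟩]
      simp
    · have hi2 : ∀ (j : Fin n) (b : ℕ), b ≤ n → (K : ℤ) < |(i j : ℤ) - ((b * N : ℕ) : ℤ)| := by
        intro j b hb
        by_contra hcon
        exact hi ⟨j, b, hb, not_lt.mp hcon⟩
      rw [hI n χ N t k K i hK hi2, sub_self]
  have hcard : (((Box n L).filter bad).card : ℝ) ≤ n * (n + 1) * (2 * K + 1) * (L : ℝ) ^ (n - 1) := by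
    have h1 := hBad n N K L hn
    have h2 : ((Box n L).filter bad).card ≤ ((Finset.univ.filter (fun i : Fin n → Fin L =>
        ∃ (j : Fin n) (b : ℕ), b ≤ n ∧ |((i j : ℕ) : ℤ) - ((b * N : ℕ) : ℤ)| ≤ (K : ℤ)))).card := by
      refine le_trans (Finset.card_le_card ?_) (Finset.card_image_le (f := fun (i : Fin n → Fin L) (j : Fin n) => (i j : ℕ)))
      intro i hi
      rw [Finset.mem_filter, mem_Box] at hi
      rw [Finset.mem_image]
      refine ⟨fun j => ⟨i j, hi.1 j⟩, ?_, rfl⟩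
      rw [Finset.mem_filter]
      exact ⟨Finset.mem_univ _, hi.2⟩
    have h3 := le_trans h2 h1
    have h4 : (((Box n L).filter bad).card : ℝ) ≤ ((n * (n + 1) * (2 * K + 1) * L ^ (n - 1) : ℕ) : ℝ) := by
      exact_mod_cast h3
    push_cast at h4
    exact h4
  have hup : ‖B x - phi k t • x‖ ^ 2 ≤ 4 * (n * (n + 1) * (2 * K + 1) * (L : ℝ) ^ (n - 1)) := by
    have h1 : ‖B x - phi k t • x‖ ^ 2 = ∑ i ∈ (Box n L).filter bad,
        ‖(((B x - phi k t • x : V n χ) : H n) : (Fin n → ℕ) → ℂ) i‖ ^ 2 := by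
      have := normsq ((B x - phi k t • x : V n χ) : H n) ((Box n L).filter bad)
        (fun i hi => by rw [hy i]; exact hyz i hi)
      exact this
    rw [h1]
    have h2 : ∀ i ∈ (Box n L).filter bad,
        ‖(((B x - phi k t • x : V n χ) : H n) : (Fin n → ℕ) → ℂ) i‖ ^ 2 ≤ (4 : ℝ) := by
      intro i _
      rw [hy i]
      have := hyb i
      nlinarith [norm_nonneg (symAct k (vec χ N t) i - phi k t * vec χ N t i)]
    refine (Finset.sum_le_card_nsmul _ _ _ h2).trans ?_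
    rw [nsmul_eq_mul]
    nlinarith [hcard]
  have hLN : (L : ℝ) ≤ (n + 1) * N := by
    have : L ≤ (n + 1) * N := by
      rw [hL, add_mul, one_mul]
      omega
    exact_mod_cast this
  have hpow : (L : ℝ) ^ (n - 1) ≤ ((n : ℝ) + 1) ^ (n - 1) * (N : ℝ) ^ (n - 1) := by
    rw [← mul_pow]
    exact pow_le_pow_left₀ (Nat.cast_nonneg _) hLN _
  have hfin : ‖B x - phi k t • x‖ ^ 2 ≤ ε ^ 2 * (N : ℝ) ^ n := by
    have hA : (0 : ℝ) ≤ n * (n + 1) * (2 * K + 1) := by positivity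
    have hNn : (N : ℝ) ^ n = N * (N : ℝ) ^ (n - 1) := by
      rw [← pow_succ']
      congr 1
      omega
    have hP : (0 : ℝ) ≤ (N : ℝ) ^ (n - 1) := by positivity
    calc ‖B x - phi k t • x‖ ^ 2 ≤ 4 * (n * (n + 1) * (2 * K + 1) * (L : ℝ) ^ (n - 1)) := hup
      _ ≤ 4 * (n * (n + 1) * (2 * K + 1) * (((n : ℝ) + 1) ^ (n - 1) * (N : ℝ) ^ (n - 1))) := by
          have := mul_le_mul_of_nonneg_left hpow hA
          linarith
      _ = C * (N : ℝ) ^ (n - 1) := by rw [hC]; ring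
      _ ≤ (ε ^ 2 * N) * (N : ℝ) ^ (n - 1) := mul_le_mul_of_nonneg_right hNC hP
      _ = ε ^ 2 * (N : ℝ) ^ n := by rw [hNn]; ring
  refine ⟨x, ?_, ?_⟩
  · intro h0
    rw [h0, norm_zero] at hlow
    have : (0 : ℝ) < (N : ℝ) ^ n := by positivity
    norm_num at hlow
    linarith
  · have h1 : ‖B x - phi k t • x‖ ^ 2 ≤ (ε * ‖x‖) ^ 2 := by
      rw [mul_pow]
      refine hfin.trans ?_
      exact mul_le_mul_of_nonneg_left hlow (by positivity)
    exact le_of_sq_le_sq h1 (by positivity)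

end Pool.Agent.Q192.SH.TaskApproxPf
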