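import Pool.Agent.Q192.SH.Stmts

/-! Proof of `TaskBad` (blueprint of helper192), by helper242. -/

open Finset

namespace Pool.Agent.Q192.SH.TaskBadPf

open Pool.Agent.Q192.SH

lemma cardA (L K : ℕ) (c : ℤ) :
    ((Finset.univ : Finset (Fin L)).filter (fun v : Fin L =>
      |((v : ℕ) : ℤ) - c| ≤ (K : ℤ))).card ≤ 2 * K + 1 := by
  have h1 : ((Finset.univ : Finset (Fin L)).filter (fun v : Fin L =>
      |((v : ℕ) : ℤ) - c| ≤ (K : ℤ))).card ≤ (Finset.Icc (c - K) (c + K)).card := by
    apply Finset.card_le_card_of_injOn (fun v : Fin L => ((v : ℕ) : ℤ))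
    · intro v hv
      simp only [Finset.coe_filter, Finset.mem_univ, true_and, Set.mem_setOf_eq] at hv
      rw [abs_le] at hv
      simp only [Finset.coe_Icc, Set.mem_Icc]
      constructor <;> omega
    · intro v _ w _ h
      have : ((v : ℕ) : ℤ) = ((w : ℕ) : ℤ) := h
      exact Fin.ext (by exact_mod_cast this)
  have h2 : (Finset.Icc (c - K) (c + K)).card = 2 * K + 1 := by
    rw [Int.card_Icc]
    omega
  omega

lemma cardPi (n L : ℕ) (j : Fin n) (A : Finset (Fin L)) :
    ((Finset.univ : Finset (Fin n → Fin L)).filter (fun i => i j ∈ A)).card =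
      A.card * L ^ (n - 1) := by
  classical
  have h1 : ((Finset.univ : Finset (Fin n → Fin L)).filter (fun i => i j ∈ A)) =
      Fintype.piFinset (fun j' : Fin n => if j' = j then A else (Finset.univ : Finset (Fin L))) := by
    ext i
    simp only [Finset.mem_filter, Finset.mem_univ, true_and, Fintype.mem_piFinset]
    constructor
    · intro h j'
      by_cases hj : j' = j
      · subst hj; simpa using h
      · simp [hj]
    · intro h
      have := h j
      simpa using this
  rw [h1, Fintype.card_piFinset, ← Finset.mul_prod_erase Finset.univ _ (Finset.mem_univ j)]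
  have h2 : ∏ x ∈ Finset.univ.erase j,
      (if x = j then A else (Finset.univ : Finset (Fin L))).card = L ^ (n - 1) := by
    rw [Finset.prod_congr rfl (g := fun _ => L)]
    · rw [Finset.prod_const, Finset.card_erase_of_mem (Finset.mem_univ j), Finset.card_univ,
        Fintype.card_fin]
    · intro x hx
      have : x ≠ j := Finset.ne_of_mem_erase hx
      simp [this]
  rw [h2]
  simp

theorem main : Pool.Agent.Q192.SH.TaskBad := by
  classical
  intro n N K L hn
  have hsub : (Finset.univ.filter (fun i : Fin n → Fin L =>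
      ∃ (j : Fin n) (b : ℕ), b ≤ n ∧ |((i j : ℕ) : ℤ) - ((b * N : ℕ) : ℤ)| ≤ (K : ℤ))) ⊆
      (Finset.univ : Finset (Fin n)).biUnion (fun j => (Finset.range (n + 1)).biUnion (fun b =>
        (Finset.univ : Finset (Fin n → Fin L)).filter (fun i => i j ∈
          (Finset.univ : Finset (Fin L)).filter (fun v : Fin L =>
            |((v : ℕ) : ℤ) - ((b * N : ℕ) : ℤ)| ≤ (K : ℤ))))) := by
    intro i hi
    rw [Finset.mem_filter] at hi
    obtain ⟨-, j, b, hb, h⟩ := hi
    rw [Finset.mem_biUnion]
    refine ⟨j, Finset.mem_univ j, ?_⟩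
    rw [Finset.mem_biUnion]
    refine ⟨b, Finset.mem_range.mpr (by omega), ?_⟩
    rw [Finset.mem_filter]
    refine ⟨Finset.mem_univ _, ?_⟩
    rw [Finset.mem_filter]
    exact ⟨Finset.mem_univ _, h⟩
  refine (Finset.card_le_card hsub).trans ?_
  refine (Finset.card_biUnion_le).trans ?_
  have hj : ∀ j ∈ (Finset.univ : Finset (Fin n)),
      ((Finset.range (n + 1)).biUnion (fun b =>
        (Finset.univ : Finset (Fin n → Fin L)).filter (fun i => i j ∈
          (Finset.univ : Finset (Fin L)).filter (fun v : Fin L =>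
            |((v : ℕ) : ℤ) - ((b * N : ℕ) : ℤ)| ≤ (K : ℤ))))).card ≤
        (n + 1) * ((2 * K + 1) * L ^ (n - 1)) := by
    intro j _
    refine (Finset.card_biUnion_le).trans ?_
    have hb : ∀ b ∈ Finset.range (n + 1),
        ((Finset.univ : Finset (Fin n → Fin L)).filter (fun i => i j ∈
          (Finset.univ : Finset (Fin L)).filter (fun v : Fin L =>
            |((v : ℕ) : ℤ) - ((b * N : ℕ) : ℤ)| ≤ (K : ℤ)))).card ≤
          (2 * K + 1) * L ^ (n - 1) := by
      intro b _
      rw [cardPi]
      exact Nat.mul_le_mul_right _ (cardA L K _)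
    refine (Finset.sum_le_sum hb).trans ?_
    rw [Finset.sum_const, Finset.card_range, smul_eq_mul]
  refine (Finset.sum_le_sum hj).trans ?_
  rw [Finset.sum_const, Finset.card_univ, Fintype.card_fin, smul_eq_mul]
  apply le_of_eq
  ring

end Pool.Agent.Q192.SH.TaskBadPf
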