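import Pool.Agent.Q192.SH.Stmts

set_option autoImplicit false

namespace Pool.Agent.Q192.SH.TaskCoerPf

theorem main : Pool.Agent.Q192.SH.TaskCoer := by
  intro E _ _ _ C δ hδ h
  refine ContinuousLinearMap.isUnit_of_forall_le_norm_inner_map C (c := ⟨δ, hδ.le⟩) hδ fun x => ?_
  calc ‖x‖ ^ 2 * δ = δ * ‖x‖ ^ 2 := mul_comm _ _
    _ ≤ (inner ℂ x (C x) : ℂ).re := h x
    _ ≤ ‖(inner ℂ x (C x) : ℂ)‖ := Complex.re_le_norm _
    _ = ‖(inner ℂ (C x) x : ℂ)‖ := norm_inner_symm _ _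

end Pool.Agent.Q192.SH.TaskCoerPf
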