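import Pool.Agent.Q192.SH.Stmts

set_option autoImplicit false

open Filter Topology

namespace Pool.Agent.Q192.SH.TaskCompactPf

open Pool.Agent.Q192.SH

theorem phi_periodic {n : ℕ} (k : Fin n → ℤ) (t : Fin n → ℝ) (m : Fin n → ℤ) :
    phi k (fun j => t j + m j * (2 * Real.pi)) = phi k t := by
  unfold phi
  congr 1
  apply Finset.sum_congr rfl
  intro π _
  have h : (((∑ j, (k (π j) : ℝ) * (t j + m j * (2 * Real.pi)) : ℝ) : ℂ) * Complex.I) =
      ((∑ j, (k (π j) : ℝ) * t j : ℝ) : ℂ) * Complex.I +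
        ((∑ j, k (π j) * m j : ℤ) : ℂ) * (2 * (Real.pi : ℂ) * Complex.I) := by
    push_cast
    rw [Finset.sum_mul, Finset.sum_mul, Finset.sum_mul, ← Finset.sum_add_distrib]
    apply Finset.sum_congr rfl
    intro j _
    ring
  rw [h, Complex.exp_add, Complex.exp_int_mul_two_pi_mul_I, mul_one]

theorem phi_continuous {n : ℕ} (k : Fin n → ℤ) : Continuous (phi k) := by
  unfold phi
  fun_prop

theorem main : Pool.Agent.Q192.SH.TaskCompact := by
  intro n k
  have hpi : (0 : ℝ) < 2 * Real.pi := by positivity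
  have hr : Set.range (phi k) = phi k '' (Set.pi Set.univ fun _ : Fin n => Set.Icc 0 (2 * Real.pi)) := by
    ext z
    constructor
    · rintro ⟨t, rfl⟩
      refine ⟨fun j => toIcoMod hpi 0 (t j), fun j _ => ?_, ?_⟩
      · have := toIcoMod_mem_Ico hpi 0 (t j)
        exact ⟨this.1, by linarith [this.2]⟩
      · rw [← phi_periodic k _ (fun j => toIcoDiv hpi 0 (t j))]
        congr 1
        funext j
        have := toIcoMod_add_toIcoDiv_zsmul hpi 0 (t j)
        rw [zsmul_eq_mul] at this
        exact this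
    · rintro ⟨t, -, rfl⟩
      exact ⟨t, rfl⟩
  rw [hr]
  exact (isCompact_univ_pi fun _ => isCompact_Icc).image (phi_continuous k)

end Pool.Agent.Q192.SH.TaskCompactPf
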