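import Pool.Agent.Q192.SH.Stmts

open Filter Topology

namespace Pool.Agent.Q192.SH

lemma cont_eval (n : ℕ) (j : Fin n → ℕ) :
    Continuous (fun x : H n => (x : (Fin n → ℕ) → ℂ) j) := by
  refine Metric.continuous_iff.2 fun y ε hε => ⟨ε, hε, fun x hx => ?_⟩
  rw [dist_eq_norm] at hx ⊢
  have h := lp.norm_apply_le_norm (p := 2) (by norm_num) (x - y) j
  rw [lp.coeFn_sub, Pi.sub_apply] at h
  exact h.trans_lt hx

theorem taskComplete : TaskComplete := by
  intro n χ
  have hc : IsClosed ((V n χ : Submodule ℂ (H n)) : Set (H n)) := by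
    have e : ((V n χ : Submodule ℂ (H n)) : Set (H n)) =
        ⋂ (π : Equiv.Perm (Fin n)) (i : Fin n → ℕ),
          {x : H n | (x : (Fin n → ℕ) → ℂ) (i ∘ π) = ((χ π : ℤ) : ℂ) * (x : (Fin n → ℕ) → ℂ) i} := by
      ext x
      simp only [Set.mem_iInter]
      exact Iff.rfl
    rw [e]
    refine isClosed_iInter fun π => isClosed_iInter fun i => ?_
    exact isClosed_eq (cont_eval n _) (continuous_const.mul (cont_eval n i))
  exact hc.completeSpace_coe

end Pool.Agent.Q192.SH
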