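import Pool.Agent.Q192.SH.Stmts

open Filter Topology

namespace Pool.Agent.Q192.SH.TaskDiscPf

open Pool.Agent.Q192.SH

theorem main (hHom : TaskHom) (hAll : TaskAll) : Pool.Agent.Q192.SH.TaskDisc := by
  intro E _ _ B m P hm hG hB hε l hl hl1
  by_contra hspec
  rw [spectrum.notMem_iff] at hspec
  obtain ⟨u, hu⟩ := hspec
  set C : E →L[ℂ] E := ((u⁻¹ : (E →L[ℂ] E)ˣ) : E →L[ℂ] E) with hC
  have hinv : ∀ y, l • C y - B (C y) = y := by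
    intro y
    have h1 : (u : E →L[ℂ] E) * C = 1 := by rw [hC]; exact u.mul_inv
    have h2 : ((u : E →L[ℂ] E) * C) y = y := by rw [h1]; rfl
    rw [hu] at h2
    simpa [Algebra.algebraMap_eq_smul_one] using h2
  have hM : ∀ y : E, ∃ x : E, B x - l • x = y ∧ ‖x‖ ≤ ‖C‖ * ‖y‖ := by
    intro y
    refine ⟨-(C y), ?_, ?_⟩
    · rw [map_neg, smul_neg]
      have := hinv y
      rw [sub_neg_eq_add, neg_add_eq_sub]
      exact this
    · rw [norm_neg]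
      exact C.le_opNorm y
  have hbound : ∀ (j : ℕ) (y : E), ‖(B ^ j) y‖ ≤ ‖C‖ * ‖l‖ ^ (j + 1) * ‖y‖ := by
    intro j
    refine hAll E B m P hm hG (‖C‖ * ‖l‖ ^ (j + 1)) j (by positivity) ?_
    intro d y hy
    exact hHom E B m P hm hG l hl ‖C‖ hM d y hy j
  -- choose `j`
  have hlim : Tendsto (fun j : ℕ => ‖C‖ * ‖l‖ ^ (j + 1)) atTop (𝓝 (‖C‖ * 0)) :=
    ((tendsto_pow_atTop_nhds_zero_of_lt_one (norm_nonneg l) hl1).comp
      (tendsto_add_atTop_nat 1)).const_mul ‖C‖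
  rw [mul_zero] at hlim
  obtain ⟨j, hj⟩ := ((hlim.eventually (gt_mem_nhds (show (0:ℝ) < 1 / 2 by norm_num)))).exists
  obtain ⟨x, hx0, hx⟩ := hε (1 / (4 * ((j : ℝ) + 1))) (by positivity)
  have hpow : ∀ i : ℕ, ‖(B ^ i) x - x‖ ≤ i * (1 / (4 * ((j : ℝ) + 1)) * ‖x‖) := by
    intro i
    induction i with
    | zero => simp
    | succ i ih =>
      have h1 : (B ^ (i + 1)) x - x = B ((B ^ i) x - x) + (B x - x) := by
        rw [pow_succ', ContinuousLinearMap.mul_apply, map_sub]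
        abel
      rw [h1]
      calc ‖B ((B ^ i) x - x) + (B x - x)‖ ≤ ‖B ((B ^ i) x - x)‖ + ‖B x - x‖ := norm_add_le _ _
        _ ≤ i * (1 / (4 * ((j : ℝ) + 1)) * ‖x‖) + 1 / (4 * ((j : ℝ) + 1)) * ‖x‖ :=
            add_le_add ((hB _).trans ih) hx
        _ = ((i + 1 : ℕ) : ℝ) * (1 / (4 * ((j : ℝ) + 1)) * ‖x‖) := by push_cast; ring
  have hxpos : 0 < ‖x‖ := norm_pos_iff.2 hx0
  have h1 := hpow j
  have h2 := hbound j x
  have h3 : ‖x‖ ≤ ‖(B ^ j) x‖ + ‖(B ^ j) x - x‖ := by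
    have : x = (B ^ j) x - ((B ^ j) x - x) := by abel
    calc ‖x‖ = ‖(B ^ j) x - ((B ^ j) x - x)‖ := by rw [← this]
      _ ≤ _ := norm_sub_le _ _
  have h4 : (j : ℝ) * (1 / (4 * ((j : ℝ) + 1)) * ‖x‖) ≤ 1 / 4 * ‖x‖ := by
    have : (j : ℝ) * (1 / (4 * ((j : ℝ) + 1))) ≤ 1 / 4 := by
      rw [mul_one_div, div_le_iff₀ (by positivity)]
      have : (0 : ℝ) ≤ j := Nat.cast_nonneg j
      linarith
    calc (j : ℝ) * (1 / (4 * ((j : ℝ) + 1)) * ‖x‖) = (j : ℝ) * (1 / (4 * ((j : ℝ) + 1))) * ‖x‖ := by ring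
      _ ≤ 1 / 4 * ‖x‖ := mul_le_mul_of_nonneg_right this hxpos.le
  have h5 : ‖C‖ * ‖l‖ ^ (j + 1) * ‖x‖ ≤ 1 / 2 * ‖x‖ :=
    mul_le_mul_of_nonneg_right hj.le hxpos.le
  linarith

end Pool.Agent.Q192.SH.TaskDiscPf
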