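import Pool.Agent.Q192.SH.Stmts

/-!
# Finite Fourier analysis (helper57)
-/

open Finset

namespace Pool.Agent.Q192.SH.TaskFourierPf

open Pool.Agent.Q192.SH

theorem sum1 (N : ℕ) (hN : 0 < N) (m : ℤ) :
    ∑ s : Fin N, Complex.exp ((((m : ℝ) * (2 * Real.pi * ((s : ℕ) : ℝ) / N) : ℝ) : ℂ) * Complex.I) =
      if (N : ℤ) ∣ m then (N : ℂ) else 0 := by
  have hN0 : (N : ℂ) ≠ 0 := by exact_mod_cast hN.ne'
  set z : ℂ := Complex.exp ((m : ℂ) * (2 * Real.pi / N) * Complex.I) with hz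
  have h1 : ∀ s : Fin N, Complex.exp ((((m : ℝ) * (2 * Real.pi * ((s : ℕ) : ℝ) / N) : ℝ) : ℂ) *
      Complex.I) = z ^ (s : ℕ) := by
    intro s
    rw [hz, ← Complex.exp_nat_mul]
    congr 1
    push_cast
    ring
  simp only [h1]
  rw [Fin.sum_univ_eq_sum_range (fun s => z ^ s) N]
  have hzN : z ^ N = 1 := by
    rw [hz, ← Complex.exp_nat_mul, Complex.exp_eq_one_iff]
    refine ⟨m, ?_⟩
    field_simp
  split_ifs with hd
  · obtain ⟨k, rfl⟩ := hd
    have hz1 : z = 1 := by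
      rw [hz, Complex.exp_eq_one_iff]
      refine ⟨k, ?_⟩
      push_cast
      field_simp
    rw [hz1]
    simp
  · have hz1 : z ≠ 1 := by
      intro h
      rw [hz, Complex.exp_eq_one_iff] at h
      obtain ⟨k, hk⟩ := h
      refine hd ⟨k, ?_⟩
      have hpi : (2 * (Real.pi : ℂ) * Complex.I) ≠ 0 := by
        simp [Real.pi_ne_zero]
      have h2 : (m : ℂ) * (2 * Real.pi * Complex.I) = (N : ℂ) * k * (2 * Real.pi * Complex.I) := by
        field_simp at hk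
        linear_combination (2 * Real.pi * Complex.I) * hk
      have h3 := mul_right_cancel₀ hpi h2
      exact_mod_cast h3
    have h2 := mul_geom_sum z N
    rw [hzN, sub_self, mul_eq_zero] at h2
    rcases h2 with h2 | h2
    · exact absurd (sub_eq_zero.1 h2) hz1
    · exact h2

theorem sumn {n : ℕ} (N : ℕ) (hN : 0 < N) (m : Fin n → ℤ) :
    ∑ s : Fin n → Fin N, Complex.exp (((∑ j, (m j : ℝ) * (2 * Real.pi * ((s j : ℕ) : ℝ) / N) : ℝ) :
      ℂ) * Complex.I) = ∏ j, if (N : ℤ) ∣ m j then (N : ℂ) else 0 := by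
  have h1 : ∀ s : Fin n → Fin N, Complex.exp (((∑ j, (m j : ℝ) * (2 * Real.pi * ((s j : ℕ) : ℝ) / N) :
      ℝ) : ℂ) * Complex.I) = ∏ j, Complex.exp ((((m j : ℝ) * (2 * Real.pi * ((s j : ℕ) : ℝ) / N) : ℝ) :
        ℂ) * Complex.I) := by
    intro s
    rw [← Complex.exp_sum, Complex.ofReal_sum, Finset.sum_mul]
  simp only [h1]
  have h2 := Finset.prod_univ_sum (fun _ : Fin n => (univ : Finset (Fin N)))
    (fun j s => Complex.exp ((((m j : ℝ) * (2 * Real.pi * ((s : ℕ) : ℝ) / N) : ℝ) : ℂ) * Complex.I))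
  rw [Fintype.piFinset_univ] at h2
  rw [← h2]
  exact Finset.prod_congr rfl fun j _ => sum1 N hN (m j)

theorem main : Pool.Agent.Q192.SH.TaskFourier := by
  intro n M K N k x hk hN hx
  have hN0 : 0 < N := by omega
  -- expand the squares
  have h1 : ∀ s : Fin n → Fin N,
      Complex.exp (((∑ j, (k j : ℝ) * (2 * Real.pi * ((s j : ℕ) : ℝ) / N) : ℝ) : ℂ) * Complex.I) *
      (‖∑ a : Fin n → Fin N, x (fun j => (a j : ℕ)) *
        Complex.exp (((∑ j, ((a j : ℕ) : ℝ) * (2 * Real.pi * ((s j : ℕ) : ℝ) / N) : ℝ) : ℂ) *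
          Complex.I)‖ ^ 2 : ℝ) =
      ∑ b : Fin n → Fin N, ∑ a : Fin n → Fin N, (starRingEnd ℂ) (x (fun j => (b j : ℕ))) *
        (x (fun j => (a j : ℕ)) * Complex.exp (((∑ j, (((k j + ((a j : ℕ) : ℤ) - ((b j : ℕ) : ℤ)) : ℤ) : ℝ) *
          (2 * Real.pi * ((s j : ℕ) : ℝ) / N) : ℝ) : ℂ) * Complex.I)) := by
    intro s
    rw [Complex.ofReal_pow, ← Complex.mul_conj', map_sum, Finset.sum_mul_sum, Finset.mul_sum,
      Finset.sum_comm]
    simp_rw [Finset.mul_sum]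
    refine Finset.sum_congr rfl fun a _ => Finset.sum_congr rfl fun b _ => ?_
    rw [map_mul, ← Complex.exp_conj, map_mul, Complex.conj_ofReal, Complex.conj_I]
    have h2 : Complex.exp (((∑ j, (((k j + ((a j : ℕ) : ℤ) - ((b j : ℕ) : ℤ)) : ℤ) : ℝ) *
          (2 * Real.pi * ((s j : ℕ) : ℝ) / N) : ℝ) : ℂ) * Complex.I) =
        Complex.exp (((∑ j, (k j : ℝ) * (2 * Real.pi * ((s j : ℕ) : ℝ) / N) : ℝ) : ℂ) * Complex.I) *
        Complex.exp (((∑ j, ((a j : ℕ) : ℝ) * (2 * Real.pi * ((s j : ℕ) : ℝ) / N) : ℝ) : ℂ) *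
          Complex.I) *
        Complex.exp (((∑ j, ((b j : ℕ) : ℝ) * (2 * Real.pi * ((s j : ℕ) : ℝ) / N) : ℝ) : ℂ) *
          -Complex.I) := by
      rw [← Complex.exp_add, ← Complex.exp_add]
      congr 1
      have h3 : (∑ j, (((k j + ((a j : ℕ) : ℤ) - ((b j : ℕ) : ℤ)) : ℤ) : ℝ) *
          (2 * Real.pi * ((s j : ℕ) : ℝ) / N)) =
          (∑ j, (k j : ℝ) * (2 * Real.pi * ((s j : ℕ) : ℝ) / N)) +
          (∑ j, ((a j : ℕ) : ℝ) * (2 * Real.pi * ((s j : ℕ) : ℝ) / N)) -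
          (∑ j, ((b j : ℕ) : ℝ) * (2 * Real.pi * ((s j : ℕ) : ℝ) / N)) := by
        rw [← Finset.sum_add_distrib, ← Finset.sum_sub_distrib]
        refine Finset.sum_congr rfl fun j _ => ?_
        push_cast
        ring
      rw [h3]
      push_cast
      ring
    rw [h2]
    ring
  simp only [h1]
  rw [Finset.sum_comm, Finset.mul_sum]
  refine Finset.sum_congr rfl fun i _ => ?_
  rw [Finset.sum_comm]
  have h2 : ∀ a : Fin n → Fin N, ∑ s : Fin n → Fin N,
      (starRingEnd ℂ) (x (fun j => (i j : ℕ))) * (x (fun j => (a j : ℕ)) *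
        Complex.exp (((∑ j, (((k j + ((a j : ℕ) : ℤ) - ((i j : ℕ) : ℤ)) : ℤ) : ℝ) *
          (2 * Real.pi * ((s j : ℕ) : ℝ) / N) : ℝ) : ℂ) * Complex.I)) =
      (starRingEnd ℂ) (x (fun j => (i j : ℕ))) * (x (fun j => (a j : ℕ)) *
        ∏ j, if (N : ℤ) ∣ (k j + ((a j : ℕ) : ℤ) - ((i j : ℕ) : ℤ)) then (N : ℂ) else 0) := by
    intro a
    rw [← sumn N hN0 (fun j => k j + ((a j : ℕ) : ℤ) - ((i j : ℕ) : ℤ)), Finset.mul_sum,
      Finset.mul_sum]
  simp only [h2]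
  rw [← Finset.mul_sum]
  by_cases hxi : x (fun j => (i j : ℕ)) = 0
  · rw [hxi]
    simp
  have hiM : ∀ j, (i j : ℕ) < M := by
    intro j
    by_contra hcon
    exact hxi (hx _ ⟨j, not_lt.1 hcon⟩)
  rw [mul_left_comm]
  congr 1
  -- the sum over `a`
  have h3 : ∀ a : Fin n → Fin N, (x (fun j => (a j : ℕ)) *
      ∏ j, if (N : ℤ) ∣ (k j + ((a j : ℕ) : ℤ) - ((i j : ℕ) : ℤ)) then (N : ℂ) else 0) ≠ 0 →
      ∀ j, ((a j : ℕ) : ℤ) = ((i j : ℕ) : ℤ) - k j := by
    intro a ha j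
    have ha1 := left_ne_zero_of_mul ha
    have ha2 := right_ne_zero_of_mul ha
    have haM : (a j : ℕ) < M := by
      by_contra hcon
      exact ha1 (hx _ ⟨j, not_lt.1 hcon⟩)
    rw [Finset.prod_ne_zero_iff] at ha2
    have h4 := ha2 j (mem_univ j)
    have h5 : (N : ℤ) ∣ (k j + ((a j : ℕ) : ℤ) - ((i j : ℕ) : ℤ)) := by
      by_contra hcon
      exact h4 (if_neg hcon)
    have h6 := abs_le.1 (hk j)
    have h7 := hiM j
    have h8 := Int.eq_zero_of_abs_lt_dvd h5 (by rw [abs_lt]; constructor <;> omega)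
    omega
  by_cases hki : ∀ j, k j ≤ ((i j : ℕ) : ℤ)
  · have hact : act k x (fun j => (i j : ℕ)) = x (fun j => (((i j : ℕ) : ℤ) - k j).toNat) := if_pos hki
    rw [hact]
    have hlt : ∀ j, (((i j : ℕ) : ℤ) - k j).toNat < N := by
      intro j
      have h6 := abs_le.1 (hk j)
      have h7 := hiM j
      omega
    rw [Finset.sum_eq_single (fun j => (⟨(((i j : ℕ) : ℤ) - k j).toNat, hlt j⟩ : Fin N))]
    · have h8 : ∀ j, (N : ℤ) ∣ (k j + (((((i j : ℕ) : ℤ) - k j).toNat : ℕ) : ℤ) - ((i j : ℕ) : ℤ)) := by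
        intro j
        have h9 := hki j
        have h10 : (k j + (((((i j : ℕ) : ℤ) - k j).toNat : ℕ) : ℤ) - ((i j : ℕ) : ℤ)) = 0 := by omega
        rw [h10]
        exact dvd_zero _
      simp only [h8, if_true, Finset.prod_const, Finset.card_univ, Fintype.card_fin]
      ring
    · intro a _ hne
      by_contra hcon
      refine hne (funext fun j => Fin.ext ?_)
      have h9 := h3 a hcon j
      change (a j : ℕ) = (((i j : ℕ) : ℤ) - k j).toNat
      omega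
    · intro h9
      exact absurd (mem_univ _) h9
  · have hact : act k x (fun j => (i j : ℕ)) = 0 := if_neg hki
    rw [hact, mul_zero]
    symm
    refine Finset.sum_eq_zero fun a _ => ?_
    by_contra hcon
    refine hki fun j => ?_
    have h9 := h3 a hcon j
    omega

end Pool.Agent.Q192.SH.TaskFourierPf
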