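import Pool.Agent.Q192.SH.Stmts

open Filter Topology

namespace Pool.Agent.Q192.SH.TaskGraded
open Pool.Agent.Q192.SH

theorem sumToNat {n : ℕ} (κ : Fin n → ℤ) (m : ℕ) (hκ : ∑ j, κ j = (m : ℤ)) (i : Fin n → ℕ)
    (h : ∀ j, κ j ≤ (i j : ℤ)) : (∑ j, ((i j : ℤ) - κ j).toNat) + m = ∑ j, i j := by
  have h1 : ((∑ j, ((i j : ℤ) - κ j).toNat : ℕ) : ℤ) = ∑ j, ((i j : ℤ) - κ j) := by
    rw [Nat.cast_sum]
    refine Finset.sum_congr rfl fun j _ => ?_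
    exact Int.toNat_of_nonneg (by linarith [h j])
  have h2 : ∑ j, ((i j : ℤ) - κ j) = ∑ j, (i j : ℤ) - m := by
    rw [Finset.sum_sub_distrib, hκ]
  have h3 : ((∑ j, i j : ℕ) : ℤ) = ∑ j, (i j : ℤ) := by push_cast; rfl
  have h4 : (((∑ j, ((i j : ℤ) - κ j).toNat) + m : ℕ) : ℤ) = ((∑ j, i j : ℕ) : ℤ) := by
    rw [Nat.cast_add, h1, h2, h3]; ring
  exact_mod_cast h4

theorem act_low {n : ℕ} (κ : Fin n → ℤ) (m : ℕ) (hκ : ∑ j, κ j = (m : ℤ))
    (y : (Fin n → ℕ) → ℂ) (i : Fin n → ℕ) (hi : ∑ j, i j < m) : act κ y i = 0 := by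
  unfold act
  rw [if_neg]
  intro h
  have := sumToNat κ m hκ i h
  omega

theorem act_cut {n : ℕ} (κ : Fin n → ℤ) (m : ℕ) (hκ : ∑ j, κ j = (m : ℤ)) (d : ℕ)
    (y z : (Fin n → ℕ) → ℂ) (hz : ∀ i, z i = if ∑ j, i j = d then y i else 0) (i : Fin n → ℕ) :
    act κ z i = if ∑ j, i j = d + m then act κ y i else 0 := by
  unfold act
  by_cases h : ∀ j, κ j ≤ (i j : ℤ)
  · have hs := sumToNat κ m hκ i h
    rw [if_pos h, if_pos h, hz]
    by_cases h' : ∑ j, i j = d + m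
    · rw [if_pos h', if_pos (by omega)]
    · rw [if_neg h', if_neg (by omega)]
  · rw [if_neg h, if_neg h]
    simp

theorem symAct_cut {n : ℕ} (k : Fin n → ℤ) (m : ℕ) (hk : ∑ j, k j = (m : ℤ)) (d : ℕ)
    (y z : (Fin n → ℕ) → ℂ) (hz : ∀ i, z i = if ∑ j, i j = d then y i else 0) (i : Fin n → ℕ) :
    symAct k z i = if ∑ j, i j = d + m then symAct k y i else 0 := by
  have hp : ∀ π : Equiv.Perm (Fin n), ∑ j, (k ∘ π) j = (m : ℤ) := fun π => by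
    rw [← hk]; exact Equiv.sum_comp π k
  unfold symAct
  have hs : ∑ π : Equiv.Perm (Fin n), act (k ∘ ⇑π) z i =
      ∑ π : Equiv.Perm (Fin n), (if ∑ j, i j = d + m then act (k ∘ ⇑π) y i else 0) :=
    Finset.sum_congr rfl fun π _ => act_cut (k ∘ ⇑π) m (hp π) d y z hz i
  rw [hs]
  by_cases h' : ∑ j, i j = d + m
  · simp only [if_pos h']
  · simp only [if_neg h', Finset.sum_const_zero, mul_zero]

theorem symAct_low {n : ℕ} (k : Fin n → ℤ) (m : ℕ) (hk : ∑ j, k j = (m : ℤ))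
    (y : (Fin n → ℕ) → ℂ) (i : Fin n → ℕ) (hi : ∑ j, i j < m) : symAct k y i = 0 := by
  have hp : ∀ π : Equiv.Perm (Fin n), ∑ j, (k ∘ π) j = (m : ℤ) := fun π => by
    rw [← hk]; exact Equiv.sum_comp π k
  unfold symAct
  have hs : ∑ π : Equiv.Perm (Fin n), act (k ∘ ⇑π) y i = 0 :=
    Finset.sum_eq_zero fun π _ => act_low (k ∘ ⇑π) m (hp π) y i hi
  rw [hs, mul_zero]

theorem main (hP : TaskProj) : Pool.Agent.Q192.SH.TaskGraded := by
  intro n k m χ B hB hk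
  obtain ⟨P, hc, hsq, hpr⟩ := hP n χ
  refine ⟨P, ⟨hsq, hpr, ?_, ?_⟩⟩
  · intro d x
    refine Subtype.ext (lp.ext (funext fun i => ?_))
    rw [hc (d + m) (B x) i, hB (P d x) i, hB x i]
    exact (symAct_cut k m hk d _ _ (fun i' => hc d x i') i).symm
  · intro d x hd
    refine Subtype.ext (lp.ext (funext fun i => ?_))
    rw [hc d (B x) i, hB x i]
    by_cases h : ∑ j, i j = d
    · rw [if_pos h, symAct_low k m hk _ i (by omega)]; rfl
    · rw [if_neg h]; rfl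

end Pool.Agent.Q192.SH.TaskGraded
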