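import Pool.Agent.Q192.SH.Stmts

open Filter Topology
open Pool.Agent.Q192.SH

namespace Pool.Agent.Q192.SH.TaskHomPf

theorem main : Pool.Agent.Q192.SH.TaskHom := by
  intro E _ _ B m P hm hG l hl M hM d y hy j
  obtain ⟨x, hx, hxM⟩ := hM y
  have hPy : ∀ e, e ≠ d → P e y = 0 := by
    intro e he
    rw [← hy, hG.proj, if_neg he]
  have hlx : ∀ e, l • P e x = P e (B x) - P e y := by
    intro e
    rw [← hx, map_sub, map_smul]
    abel
  have hlow : ∀ e, e < d → P e x = 0 := by
    intro e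
    induction e using Nat.strong_induction_on with
    | _ e ih =>
      intro he
      have h1 : l • P e x = 0 := by
        rw [hlx, hPy e he.ne, sub_zero]
        by_cases hem : e < m
        · exact hG.low e x hem
        · obtain ⟨a, rfl⟩ : ∃ a, e = a + m := ⟨e - m, by omega⟩
          rw [hG.up, ih a (by omega) (by omega), map_zero]
      exact (smul_eq_zero.mp h1).resolve_left hl
  have h0 : l • P d x = -y := by
    rw [hlx, hy]
    by_cases hdm : d < m
    · rw [hG.low d x hdm, zero_sub]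
    · obtain ⟨a, rfl⟩ : ∃ a, d = a + m := ⟨d - m, by omega⟩
      rw [hG.up, hlow a (by omega), map_zero, zero_sub]
  have hj : ∀ j : ℕ, l ^ (j + 1) • P (d + j * m) x = -((B ^ j) y) := by
    intro j
    induction j with
    | zero => simpa using h0
    | succ j ih =>
      have e1 : d + (j + 1) * m = (d + j * m) + m := by ring
      have h1 : l • P (d + (j + 1) * m) x = B (P (d + j * m) x) := by
        rw [hlx, hPy _ (by rw [e1]; omega), sub_zero, e1, hG.up]
      rw [pow_succ, mul_smul, h1, ← map_smul, ih, map_neg, pow_succ']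
      rfl
  have hb : ‖P (d + j * m) x‖ ≤ ‖x‖ := by
    have h1 := le_hasSum (hG.sq x) (d + j * m) (fun i _ => sq_nonneg _)
    exact (pow_le_pow_iff_left₀ (norm_nonneg _) (norm_nonneg _) two_ne_zero).mp h1
  have h2 : ‖(B ^ j) y‖ = ‖l‖ ^ (j + 1) * ‖P (d + j * m) x‖ := by
    rw [← norm_neg, ← hj j, norm_smul, norm_pow]
  rw [h2]
  calc ‖l‖ ^ (j + 1) * ‖P (d + j * m) x‖ ≤ ‖l‖ ^ (j + 1) * (M * ‖y‖) :=
        mul_le_mul_of_nonneg_left (hb.trans hxM) (by positivity)
    _ = M * ‖l‖ ^ (j + 1) * ‖y‖ := by ring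

end Pool.Agent.Q192.SH.TaskHomPf
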