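import Pool.Agent.Q192.SH.Stmts
import Pool.Agent.Y98.EC.Hull

set_option autoImplicit false

open Filter Topology

namespace Pool.Agent.Q192.SH.TaskHull

theorem func_eq (f : ℂ →L[ℝ] ℝ) (z : ℂ) : f z = ((⟨f 1, -f Complex.I⟩ : ℂ) * z).re := by
  have hz : z = z.re • (1 : ℂ) + z.im • Complex.I := by
    apply Complex.ext <;> simp
  conv_lhs => rw [hz]
  rw [map_add, map_smul, map_smul, Complex.mul_re]
  simp only [smul_eq_mul]
  ring

theorem main (hC : Pool.Agent.Q192.SH.TaskCoer) : Pool.Agent.Q192.SH.TaskHull := by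
  intro E _ _ _ B R hR hB l hl
  by_contra hcon
  have hcl : IsClosed (convexHull ℝ R) := (Pool.Agent.Y98.EC.isCompact_hull hR).isClosed
  obtain ⟨f, u, hfu, hul⟩ := geometric_hahn_banach_closed_point (convex_convexHull ℝ R) hcl hcon
  obtain ⟨c, hc⟩ : ∃ c : ℂ, c = ⟨f 1, -f Complex.I⟩ := ⟨_, rfl⟩
  have hf : ∀ z : ℂ, f z = (c * z).re := fun z => by rw [hc]; exact func_eq f z
  have h1 := hB c u (fun z hz => by
    rw [← hf]
    exact (hfu z (subset_convexHull ℝ R hz)).le)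
  rw [hf] at hul
  obtain ⟨A, hA⟩ : ∃ A : E →L[ℂ] E, A = algebraMap ℂ (E →L[ℂ] E) l - B := ⟨_, rfl⟩
  have hAx : ∀ x, A x = l • x - B x := by
    intro x
    rw [hA]
    simp [Algebra.algebraMap_eq_smul_one]
  have h2 : IsUnit (c • A) := by
    refine hC E (c • A) ((c * l).re - u) (by linarith) (fun x => ?_)
    have h3 := h1 x
    have h4 : (inner ℂ x ((c • A) x) : ℂ) = (c * l) * ((‖x‖ ^ 2 : ℝ) : ℂ) -
        c * (inner ℂ x (B x) : ℂ) := by
      rw [ContinuousLinearMap.smul_apply, hAx, inner_smul_right, inner_sub_right,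
        inner_smul_right, inner_self_eq_norm_sq_to_K]
      push_cast
      simp only [Complex.coe_algebraMap]
      ring
    rw [h4, Complex.sub_re, Complex.re_mul_ofReal]
    linarith
  rw [spectrum.mem_iff, ← hA] at hl
  apply hl
  obtain ⟨v, hv⟩ := h2
  have e1 : A * (c • (↑v⁻¹ : E →L[ℂ] E)) = 1 := by
    rw [mul_smul_comm, ← smul_mul_assoc, ← hv, Units.mul_inv]
  have e2 : (c • (↑v⁻¹ : E →L[ℂ] E)) * A = 1 := by
    rw [smul_mul_assoc, ← mul_smul_comm, ← hv, Units.inv_mul]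
  exact ⟨⟨A, c • (↑v⁻¹ : E →L[ℂ] E), e1, e2⟩, rfl⟩

end Pool.Agent.Q192.SH.TaskHull
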