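import Pool.Agent.Q192.SH.Stmts

open Filter Topology

namespace Pool.Agent.Q192.SH.TaskIntervalPf

open Pool.Agent.Q192.SH

/-- the real symbol -/
noncomputable def interval_r {n : ℕ} (k : Fin n → ℤ) (t : Fin n → ℝ) : ℝ :=
  ((n.factorial : ℝ))⁻¹ * ∑ π : Equiv.Perm (Fin n), Real.cos (∑ j, (k (π j) : ℝ) * t j)

theorem interval_re {n : ℕ} (k : Fin n → ℤ) (t : Fin n → ℝ) : (phi k t).re = interval_r k t := by
  unfold phi interval_r
  have h1 : (((n.factorial : ℂ))⁻¹ : ℂ) = ((((n.factorial : ℝ))⁻¹ : ℝ) : ℂ) := by push_cast; rfl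
  rw [h1, Complex.re_ofReal_mul, Complex.re_sum]
  congr 1
  refine Finset.sum_congr rfl fun π _ => ?_
  rw [Complex.exp_ofReal_mul_I_re]

theorem interval_im {n : ℕ} (k : Fin n → ℤ) (t : Fin n → ℝ) (ρ : Equiv.Perm (Fin n))
    (hρ : ∀ j, k (ρ j) = - k j) : (phi k t).im = 0 := by
  unfold phi
  have h1 : (((n.factorial : ℂ))⁻¹ : ℂ) = ((((n.factorial : ℝ))⁻¹ : ℝ) : ℂ) := by push_cast; rfl
  rw [h1, Complex.im_ofReal_mul, Complex.im_sum]
  have h2 : ∀ π : Equiv.Perm (Fin n),
      (Complex.exp (((∑ j, (k (π j) : ℝ) * t j : ℝ) : ℂ) * Complex.I)).im =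
        Real.sin (∑ j, (k (π j) : ℝ) * t j) := fun π => Complex.exp_ofReal_mul_I_im _
  simp only [h2]
  have h3 : ∑ π : Equiv.Perm (Fin n), Real.sin (∑ j, (k (π j) : ℝ) * t j) =
      ∑ π : Equiv.Perm (Fin n), Real.sin (∑ j, (k ((ρ * π) j) : ℝ) * t j) :=
    (Equiv.sum_comp (Equiv.mulLeft ρ) (fun π : Equiv.Perm (Fin n) =>
      Real.sin (∑ j, (k (π j) : ℝ) * t j))).symm
  have h4 : ∀ π : Equiv.Perm (Fin n), Real.sin (∑ j, (k ((ρ * π) j) : ℝ) * t j) =
      - Real.sin (∑ j, (k (π j) : ℝ) * t j) := by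
    intro π
    rw [← Real.sin_neg, ← Finset.sum_neg_distrib]
    congr 1
    refine Finset.sum_congr rfl fun j _ => ?_
    rw [Equiv.Perm.mul_apply, hρ]
    push_cast
    ring
  simp only [h4, Finset.sum_neg_distrib] at h3
  have h5 : ∑ π : Equiv.Perm (Fin n), Real.sin (∑ j, (k (π j) : ℝ) * t j) = 0 := by linarith
  rw [h5, mul_zero]

theorem interval_cont {n : ℕ} (k : Fin n → ℤ) : Continuous (interval_r k) := by
  unfold interval_r
  fun_prop

theorem interval_abs {n : ℕ} (k : Fin n → ℤ) (t : Fin n → ℝ) : |interval_r k t| ≤ 1 := by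
  unfold interval_r
  have hpos : (0 : ℝ) < (n.factorial : ℝ) := by exact_mod_cast Nat.factorial_pos n
  rw [abs_mul, abs_of_pos (inv_pos.2 hpos)]
  have h1 : |∑ π : Equiv.Perm (Fin n), Real.cos (∑ j, (k (π j) : ℝ) * t j)| ≤ (n.factorial : ℝ) := by
    calc |∑ π : Equiv.Perm (Fin n), Real.cos (∑ j, (k (π j) : ℝ) * t j)|
        ≤ ∑ π : Equiv.Perm (Fin n), |Real.cos (∑ j, (k (π j) : ℝ) * t j)| :=
          Finset.abs_sum_le_sum_abs _ _
      _ ≤ ∑ _π : Equiv.Perm (Fin n), (1 : ℝ) := Finset.sum_le_sum fun π _ => Real.abs_cos_le_one _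
      _ = (n.factorial : ℝ) := by
          rw [Finset.sum_const, Finset.card_univ, Fintype.card_perm, Fintype.card_fin]
          simp
  calc (n.factorial : ℝ)⁻¹ * |∑ π : Equiv.Perm (Fin n), Real.cos (∑ j, (k (π j) : ℝ) * t j)|
      ≤ (n.factorial : ℝ)⁻¹ * (n.factorial : ℝ) :=
        mul_le_mul_of_nonneg_left h1 (inv_pos.2 hpos).le
    _ = 1 := inv_mul_cancel₀ hpos.ne'

theorem interval_zero {n : ℕ} (k : Fin n → ℤ) : interval_r k 0 = 1 := by
  unfold interval_r
  have hpos : (0 : ℝ) < (n.factorial : ℝ) := by exact_mod_cast Nat.factorial_pos n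
  simp only [Pi.zero_apply, mul_zero, Finset.sum_const_zero, Real.cos_zero, Finset.sum_const,
    Finset.card_univ, Fintype.card_perm, Fintype.card_fin, nsmul_eq_mul, mul_one]
  exact inv_mul_cancel₀ hpos.ne'

theorem interval_period {n : ℕ} (k : Fin n → ℤ) (t : Fin n → ℝ) :
    ∃ t' ∈ Set.pi Set.univ (fun _ : Fin n => Set.Icc (0 : ℝ) (2 * Real.pi)),
      interval_r k t' = interval_r k t := by
  have h2 : (0 : ℝ) < 2 * Real.pi := by positivity
  refine ⟨fun j => t j - ⌊t j / (2 * Real.pi)⌋ * (2 * Real.pi), ?_, ?_⟩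
  · intro j _
    have h3 := Int.floor_le (t j / (2 * Real.pi))
    have h4 := Int.lt_floor_add_one (t j / (2 * Real.pi))
    rw [le_div_iff₀ h2] at h3
    rw [div_lt_iff₀ h2] at h4
    constructor
    · show 0 ≤ t j - ⌊t j / (2 * Real.pi)⌋ * (2 * Real.pi)
      linarith
    · show t j - ⌊t j / (2 * Real.pi)⌋ * (2 * Real.pi) ≤ 2 * Real.pi
      nlinarith
  · unfold interval_r
    congr 1
    refine Finset.sum_congr rfl fun π _ => ?_
    have h5 : ∑ j, (k (π j) : ℝ) * (t j - ⌊t j / (2 * Real.pi)⌋ * (2 * Real.pi)) =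
        ∑ j, (k (π j) : ℝ) * t j -
          ((∑ j, k (π j) * ⌊t j / (2 * Real.pi)⌋ : ℤ) : ℝ) * (2 * Real.pi) := by
      push_cast
      rw [Finset.sum_mul, ← Finset.sum_sub_distrib]
      refine Finset.sum_congr rfl fun j _ => ?_
      ring
    rw [h5, Real.cos_sub_int_mul_two_pi]

theorem interval_int (m : ℤ) (hm : m ≠ 0) :
    ∫ s in (0 : ℝ)..(2 * Real.pi), Real.cos ((m : ℝ) * s) = 0 := by
  have hm' : (m : ℝ) ≠ 0 := by exact_mod_cast hm
  rw [intervalIntegral.integral_comp_mul_left (fun x => Real.cos x) hm', integral_cos]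
  have h1 : Real.sin ((m : ℝ) * (2 * Real.pi)) = 0 := by
    have : (m : ℝ) * (2 * Real.pi) = ((2 * m : ℤ) : ℝ) * Real.pi := by push_cast; ring
    rw [this]
    exact Real.sin_int_mul_pi _
  rw [h1]
  simp

theorem interval_nonpos {n : ℕ} (hn : 1 ≤ n) (k : Fin n → ℤ) (hk : ∀ j, k j ≠ 0) :
    ∃ t, interval_r k t ≤ 0 := by
  by_contra hcon
  push Not at hcon
  set j0 : Fin n := ⟨0, hn⟩
  have hcontT : Continuous (fun s : ℝ => (fun j : Fin n => if j = j0 then s else 0)) := by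
    refine continuous_pi fun j => ?_
    by_cases hj : j = j0
    · simp only [hj, if_true]; exact continuous_id
    · simp only [hj, if_false]; exact continuous_const
  have hc : Continuous (fun s : ℝ => interval_r k (fun j => if j = j0 then s else 0)) :=
    (interval_cont k).comp hcontT
  have hpos : 0 < ∫ s in (0 : ℝ)..(2 * Real.pi),
      interval_r k (fun j => if j = j0 then s else 0) := by
    refine intervalIntegral.intervalIntegral_pos_of_pos (hc.intervalIntegrable _ _) (fun s => hcon _) ?_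
    positivity
  have hzero : ∫ s in (0 : ℝ)..(2 * Real.pi),
      interval_r k (fun j => if j = j0 then s else 0) = 0 := by
    have e1 : ∀ s : ℝ, interval_r k (fun j => if j = j0 then s else 0) =
        ((n.factorial : ℝ))⁻¹ * ∑ π : Equiv.Perm (Fin n), Real.cos ((k (π j0) : ℝ) * s) := by
      intro s
      unfold interval_r
      congr 1
      refine Finset.sum_congr rfl fun π _ => ?_
      congr 1
      simp [mul_ite]
    simp only [e1]
    rw [intervalIntegral.integral_const_mul, intervalIntegral.integral_finsetSum]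
    · rw [Finset.sum_eq_zero, mul_zero]
      intro π _
      exact interval_int _ (hk _)
    · intro π _
      apply Continuous.intervalIntegrable
      fun_prop
  linarith

theorem main : Pool.Agent.Q192.SH.TaskInterval := by
  intro n hn k hk hρ
  obtain ⟨ρ, hρ⟩ := hρ
  have hK : IsCompact (Set.pi Set.univ (fun _ : Fin n => Set.Icc (0 : ℝ) (2 * Real.pi))) :=
    isCompact_univ_pi fun _ => isCompact_Icc
  have hne : (Set.pi Set.univ (fun _ : Fin n => Set.Icc (0 : ℝ) (2 * Real.pi))).Nonempty :=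
    ⟨fun _ => 0, fun _ _ => ⟨le_refl _, by positivity⟩⟩
  obtain ⟨t0, ht0, hmin⟩ := hK.exists_isMinOn hne (interval_cont k).continuousOn
  have hmin' : ∀ t, interval_r k t0 ≤ interval_r k t := by
    intro t
    obtain ⟨t', ht', he⟩ := interval_period k t
    rw [← he]
    exact hmin ht'
  obtain ⟨tn, htn⟩ := interval_nonpos hn k hk
  refine ⟨interval_r k t0, (abs_le.1 (interval_abs k t0)).1, (hmin' tn).trans htn, ?_⟩
  have hphi : ∀ t, phi k t = ((interval_r k t : ℝ) : ℂ) := by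
    intro t
    apply Complex.ext
    · rw [interval_re, Complex.ofReal_re]
    · rw [interval_im k t ρ hρ, Complex.ofReal_im]
  ext z
  constructor
  · rintro ⟨t, rfl⟩
    exact ⟨interval_r k t, ⟨hmin' t, (abs_le.1 (interval_abs k t)).2⟩, (hphi t).symm⟩
  · rintro ⟨y, ⟨hy1, hy2⟩, rfl⟩
    obtain ⟨t, ht⟩ := mem_range_of_exists_le_of_exists_ge (interval_cont k) ⟨t0, hy1⟩
      ⟨0, by rw [interval_zero]; exact hy2⟩
    exact ⟨t, by rw [hphi, ht]⟩

end Pool.Agent.Q192.SH.TaskIntervalPf
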