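import Pool.Agent.Q192.SH.Stmts

set_option autoImplicit false

namespace Pool.Agent.Q192.SH.TaskInvPf

open Pool.Agent.Q192.SH

lemma act_comp {n : ℕ} (k : Fin n → ℤ) (χ : Equiv.Perm (Fin n) →* ℤˣ) (x : (Fin n → ℕ) → ℂ)
    (hx : ∀ (π : Equiv.Perm (Fin n)) (i : Fin n → ℕ), x (i ∘ π) = ((χ π : ℤ) : ℂ) * x i)
    (σ π : Equiv.Perm (Fin n)) (i : Fin n → ℕ) :
    act (k ∘ σ) x (i ∘ π) = ((χ π : ℤ) : ℂ) * act (k ∘ (σ * π⁻¹ : Equiv.Perm (Fin n))) x i := by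
  unfold act
  have hiff : (∀ j, (k ∘ σ) j ≤ (((i ∘ π) j : ℕ) : ℤ)) ↔
      (∀ j, (k ∘ (σ * π⁻¹ : Equiv.Perm (Fin n))) j ≤ ((i j : ℕ) : ℤ)) := by
    constructor
    · intro h j
      have := h (π⁻¹ j)
      simpa [Equiv.Perm.mul_apply] using this
    · intro h j
      have := h (π j)
      simpa [Equiv.Perm.mul_apply] using this
  by_cases h : ∀ j, (k ∘ (σ * π⁻¹ : Equiv.Perm (Fin n))) j ≤ ((i j : ℕ) : ℤ)
  · rw [if_pos (hiff.2 h), if_pos h, ← hx]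
    congr 1
    funext j
    simp [Equiv.Perm.mul_apply]
  · rw [if_neg (fun h' => h (hiff.1 h')), if_neg h, mul_zero]

theorem main : Pool.Agent.Q192.SH.TaskInv := by
  intro n k χ x hx π i
  unfold symAct
  have h1 : ∑ σ : Equiv.Perm (Fin n), act (k ∘ σ) x (i ∘ π) =
      ((χ π : ℤ) : ℂ) * ∑ σ : Equiv.Perm (Fin n), act (k ∘ (σ * π⁻¹ : Equiv.Perm (Fin n))) x i := by
    rw [Finset.mul_sum]
    exact Finset.sum_congr rfl fun σ _ => act_comp k χ x hx σ π i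
  have h2 : ∑ σ : Equiv.Perm (Fin n), act (k ∘ (σ * π⁻¹ : Equiv.Perm (Fin n))) x i =
      ∑ σ : Equiv.Perm (Fin n), act (k ∘ σ) x i :=
    Equiv.sum_comp (Equiv.mulRight π⁻¹) (fun σ : Equiv.Perm (Fin n) => act (k ∘ σ) x i)
  rw [h1, h2]
  ring

end Pool.Agent.Q192.SH.TaskInvPf
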