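import Pool.Agent.Q192.SH.Stmts

namespace Pool.Agent.Q192.SH.TaskNormPf

theorem main : Pool.Agent.Q192.SH.TaskNorm := by
  intro E _ _ B h1 h2
  refine le_antisymm (B.opNorm_le_bound zero_le_one fun x => by rw [one_mul]; exact h1 x) ?_
  refine le_of_forall_pos_le_add fun ε hε => ?_
  obtain ⟨x, hx, hB⟩ := h2 ε hε
  have hx' : 0 < ‖x‖ := norm_pos_iff.2 hx
  have h3 : ‖x‖ ≤ (‖B‖ + ε) * ‖x‖ := by
    calc ‖x‖ = ‖B x - (B x - x)‖ := by rw [sub_sub_cancel]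
      _ ≤ ‖B x‖ + ‖B x - x‖ := norm_sub_le _ _
      _ ≤ ‖B‖ * ‖x‖ + ε * ‖x‖ := add_le_add (B.le_opNorm x) hB
      _ = (‖B‖ + ε) * ‖x‖ := by ring
  exact le_of_mul_le_mul_right (by linarith) hx'

end Pool.Agent.Q192.SH.TaskNormPf
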