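import Pool.Agent.Q192.SH.Stmts

/-!
# The numerical range of the operators
-/

open Filter Topology
open Pool.Agent.Q192.SH

namespace Pool.Agent.Q192.SH.TaskNumPf

/-- the box -/
private abbrev bx (n M : ℕ) : Finset (Fin n → ℕ) := Fintype.piFinset (fun _ : Fin n => Finset.range M)

private theorem bx_sum {A : Type} [AddCommMonoid A] (n N : ℕ) (f : (Fin n → ℕ) → A) :
    ∑ i ∈ bx n N, f i = ∑ i : Fin n → Fin N, f (fun j => (i j : ℕ)) := by
  symm
  apply Finset.sum_bij (fun (i : Fin n → Fin N) _ => fun j => (i j : ℕ))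
  · intro i _
    rw [Fintype.mem_piFinset]
    intro j
    exact Finset.mem_range.2 (i j).2
  · intro a _ b _ h
    funext j
    exact Fin.ext (congrFun h j)
  · intro b hb
    rw [Fintype.mem_piFinset] at hb
    exact ⟨fun j => ⟨b j, Finset.mem_range.1 (hb j)⟩, Finset.mem_univ _, rfl⟩
  · intros
    rfl

private theorem bx_tendsto (n : ℕ) : Tendsto (fun M => bx n M) atTop atTop := by
  apply tendsto_atTop_finset_of_monotone
  · intro a b hab i hi
    rw [Fintype.mem_piFinset] at hi ⊢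
    intro j
    exact Finset.mem_range.2 (lt_of_lt_of_le (Finset.mem_range.1 (hi j)) hab)
  · intro i
    refine ⟨∑ j, i j + 1, ?_⟩
    rw [Fintype.mem_piFinset]
    intro j
    exact Finset.mem_range.2 (Nat.lt_succ_of_le
      (Finset.single_le_sum (f := i) (fun _ _ => Nat.zero_le _) (Finset.mem_univ j)))

private theorem bx_perm {n M : ℕ} (π : Equiv.Perm (Fin n)) (i : Fin n → ℕ) :
    i ∘ π ∈ bx n M ↔ i ∈ bx n M := by
  rw [Fintype.mem_piFinset, Fintype.mem_piFinset]
  constructor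
  · intro h j
    have := h (π.symm j)
    simpa using this
  · intro h j
    exact h (π j)

/-- the truncation -/
private noncomputable def tr {n : ℕ} (x : H n) (M : ℕ) : H n :=
  ∑ i ∈ bx n M, lp.single 2 i ((x : (Fin n → ℕ) → ℂ) i)

open Classical in
private theorem tr_apply {n : ℕ} (x : H n) (M : ℕ) (i : Fin n → ℕ) :
    (tr x M : (Fin n → ℕ) → ℂ) i = if i ∈ bx n M then (x : (Fin n → ℕ) → ℂ) i else 0 := by
  unfold tr
  rw [lp.coeFn_sum, Finset.sum_apply]
  by_cases h : i ∈ bx n M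
  · rw [if_pos h, Finset.sum_eq_single i]
    · rw [lp.single_apply_self]
    · intro b _ hb
      rw [lp.single_apply_ne]
      exact hb.symm
    · intro h'
      exact absurd h h'
  · rw [if_neg h]
    apply Finset.sum_eq_zero
    intro b hb
    rw [lp.single_apply_ne]
    rintro rfl
    exact h hb

private theorem tr_tendsto {n : ℕ} (x : H n) : Tendsto (fun M => tr x M) atTop (𝓝 x) := by
  have h := lp.hasSum_single (p := 2) (by norm_num) x
  exact h.comp (bx_tendsto n)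

private theorem tr_mem {n : ℕ} {χ : Equiv.Perm (Fin n) →* ℤˣ} (x : V n χ) (M : ℕ) :
    tr (x : H n) M ∈ V n χ := by
  classical
  intro π i
  change (tr (x : H n) M : (Fin n → ℕ) → ℂ) (i ∘ π) = _ * (tr (x : H n) M : (Fin n → ℕ) → ℂ) i
  rw [tr_apply, tr_apply]
  by_cases h : i ∈ bx n M
  · rw [if_pos h, if_pos ((bx_perm π i).2 h)]
    exact x.2 π i
  · rw [if_neg h, if_neg (fun h' => h ((bx_perm π i).1 h')), mul_zero]

private theorem inner_box {n : ℕ} (N : ℕ) (a b : H n)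
    (ha : ∀ i, (∃ j, N ≤ i j) → (a : (Fin n → ℕ) → ℂ) i = 0) :
    (inner ℂ a b : ℂ) = ∑ i : Fin n → Fin N, (starRingEnd ℂ)
      ((a : (Fin n → ℕ) → ℂ) (fun j => (i j : ℕ))) * (b : (Fin n → ℕ) → ℂ) (fun j => (i j : ℕ)) := by
  rw [lp.inner_eq_tsum, tsum_eq_sum (s := bx n N), bx_sum n N
    (fun i => (inner ℂ ((a : (Fin n → ℕ) → ℂ) i) ((b : (Fin n → ℕ) → ℂ) i) : ℂ))]
  · apply Finset.sum_congr rfl
    intro i _
    rw [RCLike.inner_apply, mul_comm]
  · intro i hi
    rw [ha i, inner_zero_left]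
    rw [Fintype.mem_piFinset] at hi
    push Not at hi
    obtain ⟨j, hj⟩ := hi
    exact ⟨j, by rw [Finset.mem_range] at hj; omega⟩

theorem main (h : Pool.Agent.Q192.SH.TaskNumFin) : Pool.Agent.Q192.SH.TaskNum := by
  classical
  intro n k χ B hB c α hα x
  let z : ℕ → V n χ := fun M => ⟨tr (x : H n) M, tr_mem x M⟩
  have hz : Tendsto z atTop (𝓝 x) := by
    rw [tendsto_subtype_rng]
    exact tr_tendsto (x : H n)
  have hle : ∀ M, (c * (inner ℂ (z M) (B (z M)) : ℂ)).re ≤ α * ‖z M‖ ^ 2 := by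
    intro M
    set K : ℕ := ∑ j, (k j).natAbs with hK
    have hkK : ∀ j, |k j| ≤ (K : ℤ) := by
      intro j
      rw [Int.abs_eq_natAbs]
      exact_mod_cast Finset.single_le_sum (f := fun j => (k j).natAbs)
        (fun _ _ => Nat.zero_le _) (Finset.mem_univ j)
    have hsupp : ∀ i, (∃ j, M ≤ i j) → ((z M : H n) : (Fin n → ℕ) → ℂ) i = 0 := by
      rintro i ⟨j, hj⟩
      change (tr (x : H n) M : (Fin n → ℕ) → ℂ) i = 0
      rw [tr_apply, if_neg]
      intro hi
      rw [Fintype.mem_piFinset] at hi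
      have := Finset.mem_range.1 (hi j)
      omega
    have hsupp' : ∀ i, (∃ j, M + K + 1 ≤ i j) → ((z M : H n) : (Fin n → ℕ) → ℂ) i = 0 := by
      rintro i ⟨j, hj⟩
      exact hsupp i ⟨j, by omega⟩
    have h1 := h n M K (M + K + 1) k ((z M : H n) : (Fin n → ℕ) → ℂ) c α hkK (by omega) hsupp hα
    have h2 : (inner ℂ (z M) (B (z M)) : ℂ) = ∑ i : Fin n → Fin (M + K + 1), (starRingEnd ℂ)
        (((z M : H n) : (Fin n → ℕ) → ℂ) (fun j => (i j : ℕ))) *
          symAct k ((z M : H n) : (Fin n → ℕ) → ℂ) (fun j => (i j : ℕ)) := by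
      rw [Submodule.coe_inner, inner_box (M + K + 1) _ _ hsupp']
      apply Finset.sum_congr rfl
      intro i _
      rw [hB (z M)]
    have h3 : ‖z M‖ ^ 2 = ∑ i : Fin n → Fin (M + K + 1),
        ‖((z M : H n) : (Fin n → ℕ) → ℂ) (fun j => (i j : ℕ))‖ ^ 2 := by
      have h4 : (inner ℂ (z M : H n) (z M : H n) : ℂ) = _ := inner_box (M + K + 1) _ _ hsupp'
      rw [inner_self_eq_norm_sq_to_K] at h4
      have h5 : ∀ i : Fin n → Fin (M + K + 1), (starRingEnd ℂ)
          (((z M : H n) : (Fin n → ℕ) → ℂ) (fun j => (i j : ℕ))) *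
            ((z M : H n) : (Fin n → ℕ) → ℂ) (fun j => (i j : ℕ)) =
          ((‖((z M : H n) : (Fin n → ℕ) → ℂ) (fun j => (i j : ℕ))‖ ^ 2 : ℝ) : ℂ) := by
        intro i
        rw [mul_comm, Complex.mul_conj, Complex.normSq_eq_norm_sq]
      rw [Finset.sum_congr rfl fun i _ => h5 i] at h4
      have h6 : ((‖(z M : H n)‖ ^ 2 : ℝ) : ℂ) = ((∑ i : Fin n → Fin (M + K + 1),
          ‖((z M : H n) : (Fin n → ℕ) → ℂ) (fun j => (i j : ℕ))‖ ^ 2 : ℝ) : ℂ) := by
        rw [Complex.ofReal_sum]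
        rw [← h4]
        push_cast
        rfl
      exact Complex.ofReal_injective h6
    rw [h2, h3]
    exact h1
  have hc1 : Tendsto (fun M => (c * (inner ℂ (z M) (B (z M)) : ℂ)).re) atTop
      (𝓝 (c * (inner ℂ x (B x) : ℂ)).re) := by
    have hBz : Tendsto (fun M => B (z M)) atTop (𝓝 (B x)) := (B.continuous.tendsto x).comp hz
    exact (Complex.continuous_re.tendsto _).comp ((hz.inner hBz).const_mul c)
  have hc2 : Tendsto (fun M => α * ‖z M‖ ^ 2) atTop (𝓝 (α * ‖x‖ ^ 2)) :=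
    ((hz.norm).pow 2).const_mul α
  exact le_of_tendsto_of_tendsto' hc1 hc2 hle

end Pool.Agent.Q192.SH.TaskNumPf
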