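import Pool.Agent.Q192.SH.Stmts

open Filter Topology

namespace Pool.Agent.Q192.SH.TaskNumFin

theorem act_zero {n : ℕ} (x : (Fin n → ℕ) → ℂ) (i : Fin n → ℕ) : act 0 x i = x i := by
  unfold act
  rw [if_pos (fun j => by simp)]
  congr 1

theorem main (hF : TaskFourier) : Pool.Agent.Q192.SH.TaskNumFin := by
  intro n M K N k x c α hk hMN hx hα
  have hN : 0 < N := by omega
  set θ : (Fin n → Fin N) → Fin n → ℝ := fun s j => 2 * Real.pi * ((s j : ℕ) : ℝ) / N with hθ
  set w : (Fin n → Fin N) → ℝ := fun s => ‖∑ a : Fin n → Fin N, x (fun j => (a j : ℕ)) *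
        Complex.exp (((∑ j, ((a j : ℕ) : ℝ) * (2 * Real.pi * ((s j : ℕ) : ℝ) / N) : ℝ) : ℂ) *
          Complex.I)‖ ^ 2 with hw
  have hw0 : ∀ s, 0 ≤ w s := fun s => by positivity
  have key : (N : ℂ) ^ n * ∑ i : Fin n → Fin N, (starRingEnd ℂ) (x (fun j => (i j : ℕ))) *
      symAct k x (fun j => (i j : ℕ)) = ∑ s, phi k (θ s) * (w s : ℂ) := by
    have h1 : ∀ π : Equiv.Perm (Fin n), (N : ℂ) ^ n * ∑ i : Fin n → Fin N,
        (starRingEnd ℂ) (x (fun j => (i j : ℕ))) * act (k ∘ π) x (fun j => (i j : ℕ)) =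
        ∑ s : Fin n → Fin N,
          Complex.exp (((∑ j, (k (π j) : ℝ) * θ s j : ℝ) : ℂ) * Complex.I) * (w s : ℂ) :=
      fun π => hF n M K N (k ∘ π) x (fun j => hk (π j)) hMN hx
    calc (N : ℂ) ^ n * ∑ i : Fin n → Fin N, (starRingEnd ℂ) (x (fun j => (i j : ℕ))) *
          symAct k x (fun j => (i j : ℕ))
        = ((n.factorial : ℂ))⁻¹ * ∑ π : Equiv.Perm (Fin n), ((N : ℂ) ^ n *
          ∑ i : Fin n → Fin N, (starRingEnd ℂ) (x (fun j => (i j : ℕ))) *
            act (k ∘ π) x (fun j => (i j : ℕ))) := by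
          unfold symAct
          simp only [Finset.mul_sum]
          rw [Finset.sum_comm]
          refine Finset.sum_congr rfl fun π _ => Finset.sum_congr rfl fun i _ => by ring
      _ = ((n.factorial : ℂ))⁻¹ * ∑ π : Equiv.Perm (Fin n), ∑ s : Fin n → Fin N,
          Complex.exp (((∑ j, (k (π j) : ℝ) * θ s j : ℝ) : ℂ) * Complex.I) * (w s : ℂ) := by
          congr 1
          exact Finset.sum_congr rfl fun π _ => h1 π
      _ = ∑ s, phi k (θ s) * (w s : ℂ) := by
          unfold phi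
          simp only [Finset.mul_sum, Finset.sum_mul]
          rw [Finset.sum_comm]
          refine Finset.sum_congr rfl fun s _ => Finset.sum_congr rfl fun π _ => by ring
  have key0 : (N : ℝ) ^ n * ∑ i : Fin n → Fin N, ‖x (fun j => (i j : ℕ))‖ ^ 2 = ∑ s, w s := by
    have h2 := hF n M K N 0 x (fun j => by simp) hMN hx
    have h3 : (N : ℂ) ^ n * ∑ i : Fin n → Fin N, (starRingEnd ℂ) (x (fun j => (i j : ℕ))) *
        act 0 x (fun j => (i j : ℕ)) =
        (((N : ℝ) ^ n * ∑ i : Fin n → Fin N, ‖x (fun j => (i j : ℕ))‖ ^ 2 : ℝ) : ℂ) := by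
      push_cast
      congr 1
      refine Finset.sum_congr rfl fun i _ => ?_
      rw [act_zero, Complex.conj_mul']
    have h4 : ∑ s : Fin n → Fin N,
        Complex.exp (((∑ j, (((0 : Fin n → ℤ) j : ℤ) : ℝ) *
          (2 * Real.pi * ((s j : ℕ) : ℝ) / N) : ℝ) : ℂ) * Complex.I) * (w s : ℂ) =
        ((∑ s, w s : ℝ) : ℂ) := by
      rw [Complex.ofReal_sum]
      refine Finset.sum_congr rfl fun s _ => ?_
      simp
    have h5 := h3.symm.trans (h2.trans h4)
    exact_mod_cast h5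
  have hNn : (0 : ℝ) < (N : ℝ) ^ n := by positivity
  have h6 : (N : ℝ) ^ n * (c * ∑ i : Fin n → Fin N, (starRingEnd ℂ) (x (fun j => (i j : ℕ))) *
      symAct k x (fun j => (i j : ℕ))).re = ∑ s, (c * phi k (θ s)).re * w s := by
    have h7 : (N : ℂ) ^ n * (c * ∑ i : Fin n → Fin N, (starRingEnd ℂ) (x (fun j => (i j : ℕ))) *
      symAct k x (fun j => (i j : ℕ))) = ∑ s, (c * phi k (θ s)) * (w s : ℂ) := by
      rw [mul_left_comm, key, Finset.mul_sum]
      exact Finset.sum_congr rfl fun s _ => by ring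
    have h8 := congrArg Complex.re h7
    rw [Complex.re_sum] at h8
    have h9 : ∀ z : ℂ, ((N : ℂ) ^ n * z).re = (N : ℝ) ^ n * z.re := by
      intro z
      have : (N : ℂ) ^ n = (((N : ℝ) ^ n : ℝ) : ℂ) := by push_cast; rfl
      rw [this, Complex.re_ofReal_mul]
    rw [h9] at h8
    rw [h8]
    exact Finset.sum_congr rfl fun s _ => by rw [Complex.re_mul_ofReal]
  have h10 : ∑ s, (c * phi k (θ s)).re * w s ≤ α * ∑ s, w s := by
    rw [Finset.mul_sum]
    exact Finset.sum_le_sum fun s _ => mul_le_mul_of_nonneg_right (hα _) (hw0 s)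
  rw [← h6, ← key0] at h10
  have h11 : (N : ℝ) ^ n * (c * ∑ i : Fin n → Fin N, (starRingEnd ℂ) (x (fun j => (i j : ℕ))) *
      symAct k x (fun j => (i j : ℕ))).re ≤
      (N : ℝ) ^ n * (α * ∑ i : Fin n → Fin N, ‖x (fun j => (i j : ℕ))‖ ^ 2) := by
    linarith
  exact le_of_mul_le_mul_left h11 hNn

end Pool.Agent.Q192.SH.TaskNumFin
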