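import Mathlib
import Pool.Agent.Q192.SH.Stmts

set_option autoImplicit false

namespace Pool.Agent.Q192.SH.TaskOddPf

open Pool.Agent.Q192.SH

theorem main : Pool.Agent.Q192.SH.TaskOdd := by
  intro n hn k v hk
  let z : Fin n := ⟨0, hn⟩
  refine ⟨fun j => if j = z then Real.pi / 2 ^ v else 0, ?_⟩
  unfold phi
  have h1 : ∀ π : Equiv.Perm (Fin n), Complex.exp
      (((∑ j, (k (π j) : ℝ) * (if j = z then Real.pi / 2 ^ v else 0) : ℝ) : ℂ) * Complex.I) = -1 := by
    intro π
    obtain ⟨o, ho, hko⟩ := hk (π z)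
    have h2 : ∑ j, (k (π j) : ℝ) * (if j = z then Real.pi / 2 ^ v else 0) = o * Real.pi := by
      rw [Finset.sum_eq_single z]
      · rw [if_pos rfl, hko]
        push_cast
        field_simp
      · intro j _ hj
        rw [if_neg hj, mul_zero]
      · intro h
        exact absurd (Finset.mem_univ _) h
    rw [h2]
    obtain ⟨q, rfl⟩ := ho
    push_cast
    rw [show ((2 * (q : ℂ) + 1) * Real.pi) * Complex.I
        = q * (2 * Real.pi * Complex.I) + Real.pi * Complex.I by ring, Complex.exp_add,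
      Complex.exp_int_mul_two_pi_mul_I, Complex.exp_pi_mul_I, one_mul]
  rw [Finset.sum_congr rfl (fun π _ => h1 π)]
  rw [Finset.sum_const, Finset.card_univ, Fintype.card_perm, Fintype.card_fin, nsmul_eq_mul]
  have h3 : (n.factorial : ℂ) ≠ 0 := by exact_mod_cast n.factorial_ne_zero
  field_simp

end Pool.Agent.Q192.SH.TaskOddPf
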