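import Pool.Agent.Q192.SH.Stmts

open Filter Topology
open Pool.Agent.Q192.SH

namespace Pool.Agent.Q192.SH.TaskOpPf

theorem main (hAct : TaskAct) (hInv : TaskInv) : Pool.Agent.Q192.SH.TaskOp := by
  intro n k χ
  choose T hT using hAct n
  set A : H n →L[ℂ] H n :=
    ((n.factorial : ℂ))⁻¹ • ∑ π : Equiv.Perm (Fin n), T (k ∘ π) with hA
  have hAx : ∀ x : H n, A x = ((n.factorial : ℂ))⁻¹ • ∑ π : Equiv.Perm (Fin n), T (k ∘ π) x := by
    intro x
    rw [hA, smul_apply, sum_apply]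
  have hval : ∀ (x : H n) (i : Fin n → ℕ),
      (A x : (Fin n → ℕ) → ℂ) i = symAct k (x : (Fin n → ℕ) → ℂ) i := by
    intro x i
    rw [hAx, lp.coeFn_smul, Pi.smul_apply, smul_eq_mul, lp.coeFn_sum, Finset.sum_apply, symAct]
    congr 1
    exact Finset.sum_congr rfl (fun π _ => (hT (k ∘ π)).1 x i)
  have hmem : ∀ x : V n χ, A (x : H n) ∈ V n χ := by
    intro x π i
    rw [hval, hval]
    exact hInv n k χ _ x.2 π i
  refine ⟨(A.comp (V n χ).subtypeL).codRestrict (V n χ) hmem, ?_, ?_⟩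
  · intro x i
    exact hval (x : H n) i
  · intro x
    have h1 : ‖((A.comp (V n χ).subtypeL).codRestrict (V n χ) hmem) x‖ = ‖A (x : H n)‖ := rfl
    have h2 : ‖x‖ = ‖(x : H n)‖ := rfl
    rw [h1, h2, hAx, norm_smul]
    have hf : (0 : ℝ) < (n.factorial : ℝ) := by exact_mod_cast n.factorial_pos
    have h3 : ‖((n.factorial : ℂ))⁻¹‖ = ((n.factorial : ℝ))⁻¹ := by
      rw [norm_inv, Complex.norm_natCast]
    have h4 : ‖∑ π : Equiv.Perm (Fin n), T (k ∘ π) (x : H n)‖ ≤ (n.factorial : ℝ) * ‖(x : H n)‖ := by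
      refine (norm_sum_le _ _).trans ?_
      refine (Finset.sum_le_sum (s := (Finset.univ : Finset (Equiv.Perm (Fin n))))
        (f := fun π : Equiv.Perm (Fin n) => ‖T (k ∘ (π : Fin n → Fin n)) (x : H n)‖)
        (g := fun _ => ‖(x : H n)‖)
        (fun π _ => (hT (k ∘ (π : Fin n → Fin n))).2 (x : H n))).trans ?_
      rw [Finset.sum_const, Finset.card_univ, Fintype.card_perm, Fintype.card_fin, nsmul_eq_mul]
    rw [h3]
    calc ((n.factorial : ℝ))⁻¹ * ‖∑ π : Equiv.Perm (Fin n), T (k ∘ π) (x : H n)‖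
        ≤ ((n.factorial : ℝ))⁻¹ * ((n.factorial : ℝ) * ‖(x : H n)‖) :=
          mul_le_mul_of_nonneg_left h4 (by positivity)
      _ = ‖(x : H n)‖ := by field_simp

end Pool.Agent.Q192.SH.TaskOpPf
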