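import Pool.Agent.Q192.SH.Stmts

open Filter Topology

namespace Pool.Agent.Q192.SH.TaskProj

theorem hs {n : ℕ} (x : H n) : HasSum (fun i => ‖(x : (Fin n → ℕ) → ℂ) i‖ ^ 2) (‖x‖ ^ 2) := by
  have h := lp.hasSum_norm (p := 2) (by norm_num) x
  have e : ∀ y : ℝ, y ^ (2 : ENNReal).toReal = y ^ 2 := by
    intro y
    rw [ENNReal.toReal_ofNat]
    exact_mod_cast Real.rpow_natCast y 2
  simpa only [e] using h

theorem mem {n : ℕ} {f : (Fin n → ℕ) → ℂ} (h : Summable (fun i => ‖f i‖ ^ 2)) :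
    Memℓp f 2 := by
  apply memℓp_gen
  have e : ∀ y : ℝ, y ^ (2 : ENNReal).toReal = y ^ 2 := by
    intro y
    rw [ENNReal.toReal_ofNat]
    exact_mod_cast Real.rpow_natCast y 2
  simpa only [e] using h

/-- the restriction to degree `d` -/
def cut {n : ℕ} (d : ℕ) (x : (Fin n → ℕ) → ℂ) (i : Fin n → ℕ) : ℂ := if ∑ j, i j = d then x i else 0

theorem cut_le {n : ℕ} (d : ℕ) (x : (Fin n → ℕ) → ℂ) (i : Fin n → ℕ) :
    ‖cut d x i‖ ^ 2 ≤ ‖x i‖ ^ 2 := by
  unfold cut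
  split_ifs
  · exact le_rfl
  · simp

theorem cut_mem {n : ℕ} (d : ℕ) (x : H n) : Memℓp (cut d (x : (Fin n → ℕ) → ℂ)) 2 :=
  mem (Summable.of_nonneg_of_le (fun i => sq_nonneg _) (cut_le d _) (hs x).summable)

/-- the cut in the space `V` -/
def pr {n : ℕ} (χ : Equiv.Perm (Fin n) →* ℤˣ) (d : ℕ) (x : V n χ) : V n χ :=
  ⟨⟨cut d ((x : H n) : (Fin n → ℕ) → ℂ), cut_mem d (x : H n)⟩, by
    intro π i
    show cut d ((x : H n) : (Fin n → ℕ) → ℂ) (i ∘ π) =
      ((χ π : ℤ) : ℂ) * cut d ((x : H n) : (Fin n → ℕ) → ℂ) i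
    have h1 : ∑ j, (i ∘ π) j = ∑ j, i j := Equiv.sum_comp π i
    unfold cut
    rw [h1]
    split_ifs
    · exact x.2 π i
    · simp⟩

theorem pr_apply {n : ℕ} (χ : Equiv.Perm (Fin n) →* ℤˣ) (d : ℕ) (x : V n χ) (i : Fin n → ℕ) :
    ((pr χ d x : H n) : (Fin n → ℕ) → ℂ) i =
      if ∑ j, i j = d then ((x : H n) : (Fin n → ℕ) → ℂ) i else 0 := rfl

theorem ext' {n : ℕ} {χ : Equiv.Perm (Fin n) →* ℤˣ} {x y : V n χ}
    (h : ∀ i, ((x : H n) : (Fin n → ℕ) → ℂ) i = ((y : H n) : (Fin n → ℕ) → ℂ) i) : x = y :=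
  Subtype.ext (lp.ext (funext h))

theorem main : Pool.Agent.Q192.SH.TaskProj := by
  intro n χ
  have hle : ∀ d (x : V n χ), ‖pr χ d x‖ ≤ 1 * ‖x‖ := by
    intro d x
    rw [one_mul]
    refine (pow_le_pow_iff_left₀ (norm_nonneg _) (norm_nonneg _) two_ne_zero).1 ?_
    exact hasSum_le (cut_le d _) (hs (pr χ d x : H n)) (hs (x : H n))
  let L : ℕ → V n χ →ₗ[ℂ] V n χ := fun d =>
    { toFun := pr χ d
      map_add' := by
        intro x y
        apply ext'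
        intro i
        have e1 : ∀ a b : V n χ, (((a + b : V n χ) : H n) : (Fin n → ℕ) → ℂ) i =
          ((a : H n) : (Fin n → ℕ) → ℂ) i + ((b : H n) : (Fin n → ℕ) → ℂ) i := fun a b => rfl
        rw [e1, pr_apply, pr_apply, pr_apply, e1]
        split_ifs
        · rfl
        · simp
      map_smul' := by
        intro c x
        apply ext'
        intro i
        have e1 : ∀ a : V n χ, (((c • a : V n χ) : H n) : (Fin n → ℕ) → ℂ) i =
          c * ((a : H n) : (Fin n → ℕ) → ℂ) i := fun a => rfl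
        rw [RingHom.id_apply, e1, pr_apply, pr_apply, e1]
        split_ifs
        · rfl
        · simp }
  refine ⟨fun d => (L d).mkContinuous 1 (hle d), ?_, ?_, ?_⟩
  · intro d x i
    rfl
  · intro x
    have h0 := hs (x : H n)
    have h1 : HasSum ((fun i => ‖((x : H n) : (Fin n → ℕ) → ℂ) i‖ ^ 2) ∘
        (Equiv.sigmaFiberEquiv (fun i : Fin n → ℕ => ∑ j, i j))) (‖(x : H n)‖ ^ 2) :=
      (Equiv.sigmaFiberEquiv (fun i : Fin n → ℕ => ∑ j, i j)).hasSum_iff.2 h0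
    refine h1.sigma ?_
    intro d
    have h2 : HasSum (fun i => ‖((pr χ d x : H n) : (Fin n → ℕ) → ℂ) i‖ ^ 2)
      (‖pr χ d x‖ ^ 2) := hs (pr χ d x : H n)
    have h3 : Function.support (fun i => ‖((pr χ d x : H n) : (Fin n → ℕ) → ℂ) i‖ ^ 2) ⊆
        {i : Fin n → ℕ | ∑ j, i j = d} := by
      intro i hi
      by_contra hc
      apply hi
      have hc' : ¬ (∑ j, i j = d) := hc
      show ‖((pr χ d x : H n) : (Fin n → ℕ) → ℂ) i‖ ^ 2 = 0
      rw [pr_apply, if_neg hc']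
      simp
    have h4 := (hasSum_subtype_iff_of_support_subset h3).2 h2
    have h5 : (fun c : {i : Fin n → ℕ // ∑ j, i j = d} =>
        ((fun i => ‖((x : H n) : (Fin n → ℕ) → ℂ) i‖ ^ 2) ∘
          (Equiv.sigmaFiberEquiv (fun i : Fin n → ℕ => ∑ j, i j))) ⟨d, c⟩) =
        ((fun i => ‖((pr χ d x : H n) : (Fin n → ℕ) → ℂ) i‖ ^ 2) ∘ Subtype.val) := by
      funext c
      show ‖((x : H n) : (Fin n → ℕ) → ℂ) c.1‖ ^ 2 = ‖((pr χ d x : H n) : (Fin n → ℕ) → ℂ) c.1‖ ^ 2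
      rw [pr_apply, if_pos c.2]
    rw [h5]
    exact h4
  · intro d e x
    apply ext'
    intro i
    show ((pr χ d (pr χ e x) : H n) : (Fin n → ℕ) → ℂ) i = _
    by_cases hde : d = e
    · subst hde
      rw [if_pos rfl]
      show _ = ((pr χ d x : H n) : (Fin n → ℕ) → ℂ) i
      rw [pr_apply, pr_apply]
      split_ifs <;> rfl
    · rw [if_neg hde, pr_apply, pr_apply]
      show _ = (0 : ℂ)
      split_ifs with h1 h2
      · exact absurd (h1.symm.trans h2) hde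
      · rfl
      · rfl

end Pool.Agent.Q192.SH.TaskProj
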