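import Pool.Agent.Q192.SH.Stmts

namespace Pool.Agent.Q192.SH

theorem taskSpec : TaskSpec := by
  intro E _ _ B l h
  rw [spectrum.mem_iff]
  rintro ⟨u, hu⟩
  set v : E →L[ℂ] E := ((u⁻¹ : (E →L[ℂ] E)ˣ) : E →L[ℂ] E) with hv
  have hvu : v * (algebraMap ℂ (E →L[ℂ] E) l - B) = 1 := by
    rw [hv, ← hu]
    exact u.inv_mul
  have hpos : (0 : ℝ) < ‖v‖ + 1 := by positivity
  obtain ⟨x, hx0, hx⟩ := h (1 / (2 * (‖v‖ + 1))) (by positivity)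
  have hxn : 0 < ‖x‖ := norm_pos_iff.mpr hx0
  have h1 : v (l • x - B x) = x := by
    have := congrArg (fun T : E →L[ℂ] E => T x) hvu
    simpa [Algebra.algebraMap_eq_smul_one] using this
  have h2 : ‖x‖ ≤ ‖v‖ * ‖B x - l • x‖ := by
    calc ‖x‖ = ‖v (l • x - B x)‖ := by rw [h1]
      _ ≤ ‖v‖ * ‖l • x - B x‖ := v.le_opNorm _
      _ = ‖v‖ * ‖B x - l • x‖ := by rw [norm_sub_rev]
  have h3 : ‖v‖ * ‖B x - l • x‖ ≤ ‖v‖ * (1 / (2 * (‖v‖ + 1)) * ‖x‖) :=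
    mul_le_mul_of_nonneg_left hx (norm_nonneg _)
  have h4 : ‖v‖ * (1 / (2 * (‖v‖ + 1)) * ‖x‖) ≤ 1 / 2 * ‖x‖ := by
    have : ‖v‖ * (1 / (2 * (‖v‖ + 1))) ≤ 1 / 2 := by
      rw [mul_one_div, div_le_div_iff₀ (by positivity) (by norm_num)]
      linarith [norm_nonneg v]
    calc ‖v‖ * (1 / (2 * (‖v‖ + 1)) * ‖x‖) = (‖v‖ * (1 / (2 * (‖v‖ + 1)))) * ‖x‖ := by ring
      _ ≤ 1 / 2 * ‖x‖ := mul_le_mul_of_nonneg_right this hxn.le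
  linarith

end Pool.Agent.Q192.SH

namespace Pool.Agent.Q192.SH.TaskSpecPf
open Pool.Agent.Q192.SH

theorem main : Pool.Agent.Q192.SH.TaskSpec := Pool.Agent.Q192.SH.taskSpec

end Pool.Agent.Q192.SH.TaskSpecPf
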