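import Pool.Agent.Q192.SH.Stmts

namespace Pool.Agent.Q192.SH.TaskSymBdPf

open Pool.Agent.Q192.SH

theorem main : Pool.Agent.Q192.SH.TaskSymBd := by
  intro n k K L y hk hy hL
  have hact : ∀ (π : Equiv.Perm (Fin n)) (i : Fin n → ℕ), ‖act (k ∘ π) y i‖ ≤ 1 := by
    intro π i
    unfold act
    split_ifs
    · exact hy _
    · simp
  have hfac : (0 : ℝ) < (n.factorial : ℝ) := by exact_mod_cast n.factorial_pos
  refine ⟨fun i => ?_, fun i hi => ?_⟩
  · unfold symAct
    rw [norm_mul, norm_inv, Complex.norm_natCast]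
    have h1 : ‖∑ π : Equiv.Perm (Fin n), act (k ∘ π) y i‖ ≤ (n.factorial : ℝ) := by
      calc ‖∑ π : Equiv.Perm (Fin n), act (k ∘ π) y i‖
          ≤ ∑ π : Equiv.Perm (Fin n), ‖act (k ∘ π) y i‖ := norm_sum_le _ _
        _ ≤ ∑ _π : Equiv.Perm (Fin n), (1 : ℝ) := Finset.sum_le_sum fun π _ => hact π i
        _ = (n.factorial : ℝ) := by
            rw [Finset.sum_const, Finset.card_univ, Fintype.card_perm, Fintype.card_fin]
            simp
    calc ((n.factorial : ℝ))⁻¹ * ‖∑ π : Equiv.Perm (Fin n), act (k ∘ π) y i‖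
        ≤ ((n.factorial : ℝ))⁻¹ * (n.factorial : ℝ) :=
          mul_le_mul_of_nonneg_left h1 (inv_nonneg.2 hfac.le)
      _ = 1 := inv_mul_cancel₀ hfac.ne'
  · unfold symAct
    rw [Finset.sum_eq_zero, mul_zero]
    intro π _
    obtain ⟨j, hj⟩ := hi
    unfold act
    split_ifs with h
    · refine hL _ ⟨j, ?_⟩
      have h1 := hk (π j)
      have h2 := le_abs_self (k (π j))
      simp only [Function.comp]
      omega
    · rfl

end Pool.Agent.Q192.SH.TaskSymBdPf
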