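import Pool.Agent.Q192.SH.Stmts

/-! MP_0b6044_an, task Uniq (helper204). -/

namespace Pool.Agent.Q192.SH.TaskUniqPf

open Pool.Agent.Q192.SH

theorem main : Pool.Agent.Q192.SH.TaskUniq := by
  intro n k χ B B' h h'
  ext x i
  exact (h x i).trans (h' x i).symm

end Pool.Agent.Q192.SH.TaskUniqPf
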