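import Mathlib
import Pool.Agent.Q192.SH.Stmts

set_option autoImplicit false

namespace Pool.Agent.Q192.SH.TVecInt

open Finset

/-- the phase of the pair of permutations -/
noncomputable def E {n : ℕ} (k : Fin n → ℤ) (t : Fin n → ℝ) (π σ : Equiv.Perm (Fin n)) : ℂ :=
  Complex.exp (((∑ j, (k (π j) : ℝ) * t (σ j) : ℝ) : ℂ) * Complex.I)

lemma E_prod {n : ℕ} (k : Fin n → ℤ) (t : Fin n → ℝ) (π σ : Equiv.Perm (Fin n)) :
    E k t π σ = ∏ j, Complex.exp ((((k (π j) : ℝ) * t (σ j) : ℝ) : ℂ) * Complex.I) := by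
  unfold E
  rw [← Complex.exp_sum, Complex.ofReal_sum, Finset.sum_mul]

lemma E_sum {n : ℕ} (k : Fin n → ℤ) (t : Fin n → ℝ) (σ : Equiv.Perm (Fin n)) :
    ∑ π, E k t π σ = ∑ π : Equiv.Perm (Fin n), Complex.exp (((∑ j, (k (π j) : ℝ) * t j : ℝ) : ℂ) * Complex.I) := by
  refine Fintype.sum_equiv (Equiv.mulRight σ⁻¹) _ _ fun π => ?_
  unfold E
  have h : ∑ j, (k (π j) : ℝ) * t (σ j) = ∑ j, (k ((Equiv.mulRight σ⁻¹ π) j) : ℝ) * t j := by
    refine Fintype.sum_equiv σ _ _ fun j => ?_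
    have : (Equiv.mulRight σ⁻¹ π) (σ j) = π j := by
      simp [Equiv.Perm.mul_apply]
    rw [this]
  rw [h]

theorem main : Pool.Agent.Q192.SH.TaskVecInt := by
  intro n χ N t k K i hk hd
  have hact : ∀ π : Equiv.Perm (Fin n), act (k ∘ π) (vec χ N t) i =
      ∑ σ : Equiv.Perm (Fin n), (((χ σ : ℤ) : ℂ) *
        ∏ j, (if (σ j : ℕ) * N ≤ i j ∧ i j < ((σ j : ℕ) + 1) * N then
          Complex.exp (-((t (σ j) * (i j : ℝ) : ℝ) : ℂ) * Complex.I) else 0)) * E k t π σ := by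
    intro π
    have hpos : ∀ j, (k ∘ π) j ≤ (i j : ℤ) := by
      intro j
      have h1 := hd j 0 (Nat.zero_le n)
      have h2 := hk (π j)
      rw [abs_le] at h2
      rw [lt_abs] at h1
      simp only [Function.comp]
      simp only [Nat.zero_mul, Nat.cast_zero, sub_zero] at h1
      omega
    unfold act
    rw [if_pos hpos]
    unfold vec
    refine Finset.sum_congr rfl fun σ _ => ?_
    rw [mul_assoc, E_prod, ← Finset.prod_mul_distrib]
    congr 1
    refine Finset.prod_congr rfl fun j _ => ?_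
    beta_reduce
    have hm : ((((i j : ℤ) - (k ∘ π) j).toNat : ℕ) : ℤ) = (i j : ℤ) - k (π j) := by
      rw [Int.toNat_of_nonneg (sub_nonneg.mpr (hpos j))]
      rfl
    generalize (((i j : ℤ) - (k ∘ π) j).toNat : ℕ) = m at hm ⊢
    have hb1 := hd j (σ j) (le_of_lt (σ j).2)
    have hb2 := hd j ((σ j : ℕ) + 1) (σ j).2
    have h2 := hk (π j)
    generalize hP : (σ j : ℕ) * N = P at hb1 ⊢
    generalize hQ : ((σ j : ℕ) + 1) * N = Q at hb2 ⊢
    rw [abs_le] at h2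
    rw [lt_abs] at hb1 hb2
    have hiff : (P ≤ m ∧ m < Q) ↔ (P ≤ i j ∧ i j < Q) := by omega
    by_cases hc : P ≤ i j ∧ i j < Q
    · rw [if_pos (hiff.mpr hc), if_pos hc, ← Complex.exp_add]
      congr 1
      have hmC : (m : ℂ) = (i j : ℂ) - (k (π j) : ℂ) := by exact_mod_cast congrArg (Int.cast : ℤ → ℂ) hm
      push_cast
      rw [hmC]
      ring
    · rw [if_neg (fun h => hc (hiff.mp h)), if_neg hc, zero_mul]
  unfold symAct
  simp_rw [hact]
  rw [Finset.sum_comm]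
  simp_rw [← Finset.mul_sum, E_sum]
  rw [← Finset.sum_mul]
  unfold phi vec
  ring

end Pool.Agent.Q192.SH.TVecInt

namespace Pool.Agent.Q192.SH.TaskVecIntPf

theorem main : Pool.Agent.Q192.SH.TaskVecInt := Pool.Agent.Q192.SH.TVecInt.main

end Pool.Agent.Q192.SH.TaskVecIntPf
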