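import Pool.Agent.Q192.SH.Stmts

set_option autoImplicit false

namespace Pool.Agent.Q192.SH.TaskVecSymPf

open Pool.Agent.Q192.SH

theorem main : Pool.Agent.Q192.SH.TaskVecSym := by
  intro n χ N t π i
  unfold vec
  rw [Finset.mul_sum]
  refine Fintype.sum_equiv (Equiv.mulRight π⁻¹) _ _ (fun σ => ?_)
  have h1 : (∏ j, (if (σ j : ℕ) * N ≤ (i ∘ π) j ∧ (i ∘ π) j < ((σ j : ℕ) + 1) * N then
      Complex.exp (-((t (σ j) * ((i ∘ π) j : ℝ) : ℝ) : ℂ) * Complex.I) else 0)) =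
      ∏ j, (if (((Equiv.mulRight π⁻¹) σ) j : ℕ) * N ≤ i j ∧
        i j < ((((Equiv.mulRight π⁻¹) σ) j : ℕ) + 1) * N then
      Complex.exp (-((t (((Equiv.mulRight π⁻¹) σ) j) * (i j : ℝ) : ℝ) : ℂ) * Complex.I) else 0) := by
    refine Fintype.prod_equiv π _ _ (fun j => ?_)
    simp
  rw [h1]
  have h2 : ((χ σ : ℤ) : ℂ) = ((χ π : ℤ) : ℂ) * ((χ ((Equiv.mulRight π⁻¹) σ) : ℤ) : ℂ) := by
    have h3 : χ σ = χ π * χ ((Equiv.mulRight π⁻¹) σ) := by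
      rw [Equiv.coe_mulRight, map_mul, map_inv, mul_comm (χ σ), mul_inv_cancel_left]
    rw [h3]
    push_cast
    ring
  rw [h2]
  ring

end Pool.Agent.Q192.SH.TaskVecSymPf
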