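import Pool.Agent.Q192.SH.Stmts

open Filter Topology

namespace Pool.Agent.Q192.SH.TaskVecValPf

open Pool.Agent.Q192.SH

/-- the block condition -/
def Cond {n : ℕ} (N : ℕ) (i : Fin n → ℕ) (σ : Equiv.Perm (Fin n)) (j : Fin n) : Prop :=
  (σ j : ℕ) * N ≤ i j ∧ i j < ((σ j : ℕ) + 1) * N

theorem cond_uniq {a b N x : ℕ} (h1 : a * N ≤ x ∧ x < (a + 1) * N)
    (h2 : b * N ≤ x ∧ x < (b + 1) * N) : a = b := by
  rcases Nat.lt_trichotomy a b with h | h | h
  · have := Nat.mul_le_mul_right N (show a + 1 ≤ b from h)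
    omega
  · exact h
  · have := Nat.mul_le_mul_right N (show b + 1 ≤ a from h)
    omega

theorem one_term {n : ℕ} (χ : Equiv.Perm (Fin n) →* ℤˣ) (N : ℕ) (t : Fin n → ℝ)
    (i : Fin n → ℕ) (σ₀ : Equiv.Perm (Fin n)) (h : ∀ j, Cond N i σ₀ j) :
    ‖vec χ N t i‖ = 1 := by
  unfold vec
  rw [Finset.sum_eq_single σ₀]
  · rw [norm_mul, norm_prod]
    have h1 : ‖((χ σ₀ : ℤ) : ℂ)‖ = 1 := by
      rcases Int.units_eq_one_or (χ σ₀) with h | h <;> rw [h] <;> simp
    rw [h1, one_mul]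
    apply Finset.prod_eq_one
    intro j _
    rw [if_pos (show (σ₀ j : ℕ) * N ≤ i j ∧ i j < ((σ₀ j : ℕ) + 1) * N from h j)]
    have : (-((t (σ₀ j) * (i j : ℝ) : ℝ) : ℂ) * Complex.I) =
        ((-(t (σ₀ j) * (i j : ℝ)) : ℝ) : ℂ) * Complex.I := by push_cast; ring
    rw [this]
    exact Complex.norm_exp_ofReal_mul_I _
  · intro σ _ hσ
    have : ∃ j, ¬ Cond N i σ j := by
      by_contra hcon
      push Not at hcon
      apply hσ
      ext j
      exact cond_uniq (hcon j) (h j)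
    obtain ⟨j, hj⟩ := this
    apply mul_eq_zero_of_right
    exact Finset.prod_eq_zero (Finset.mem_univ j) (if_neg hj)
  · intro h
    exact absurd (Finset.mem_univ _) h

theorem no_term {n : ℕ} (χ : Equiv.Perm (Fin n) →* ℤˣ) (N : ℕ) (t : Fin n → ℝ)
    (i : Fin n → ℕ) (h : ∀ σ : Equiv.Perm (Fin n), ∃ j, ¬ Cond N i σ j) :
    vec χ N t i = 0 := by
  unfold vec
  apply Finset.sum_eq_zero
  intro σ _
  obtain ⟨j, hj⟩ := h σ
  apply mul_eq_zero_of_right
  exact Finset.prod_eq_zero (Finset.mem_univ j) (if_neg hj)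

theorem main : Pool.Agent.Q192.SH.TaskVecVal := by
  intro n χ N t i
  refine ⟨?_, ?_, ?_⟩
  · by_cases h : ∃ σ₀ : Equiv.Perm (Fin n), ∀ j, Cond N i σ₀ j
    · obtain ⟨σ₀, h⟩ := h
      exact (one_term χ N t i σ₀ h).le
    · push Not at h
      rw [no_term χ N t i h, norm_zero]
      exact zero_le_one
  · rintro ⟨j, hj⟩
    apply no_term
    intro σ
    refine ⟨j, ?_⟩
    rintro ⟨_, h2⟩
    have := Nat.mul_le_mul_right N (show (σ j : ℕ) + 1 ≤ n from (σ j).2)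
    omega
  · intro h
    exact one_term χ N t i 1 (fun j => by simpa [Cond] using h j)

end Pool.Agent.Q192.SH.TaskVecValPf
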