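import Pool.Agent.Q192.SH.Asm
import Pool.Agent.Q192.SH.Link

open Filter Topology

namespace Pool.Agent.Q192.SH

/-- `E`, with the coordinate map `J`, is the Hilbert space of the square summable families
`f : ℕ^n → ℂ` with `f (i ∘ π) = χ π * f i`. -/
def IsTensorSpace {n : ℕ} (χ : Equiv.Perm (Fin n) →* ℤˣ) (E : Type) [NormedAddCommGroup E]
    [NormedSpace ℂ E] (J : E →ₗ[ℂ] ((Fin n → ℕ) → ℂ)) : Prop :=
  (∀ x, HasSum (fun i => ‖J x i‖ ^ 2) (‖x‖ ^ 2)) ∧
  Set.range J = {f | Summable (fun i => ‖f i‖ ^ 2) ∧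
    ∀ (π : Equiv.Perm (Fin n)) (i : Fin n → ℕ), f (i ∘ π) = ((χ π : ℤ) : ℂ) * f i}

lemma hasSum_H {n : ℕ} (x : H n) :
    HasSum (fun i => ‖(x : (Fin n → ℕ) → ℂ) i‖ ^ 2) (‖x‖ ^ 2) := by
  have h := lp.hasSum_norm (p := 2) (by norm_num) x
  simpa using h

lemma unit_conj {E F : Type} [NormedAddCommGroup E] [NormedSpace ℂ E] [NormedAddCommGroup F]
    [NormedSpace ℂ F] (U : E ≃L[ℂ] F) (B : F →L[ℂ] F) (C : E →L[ℂ] E)
    (h : ∀ x, U (C x) = B (U x)) (hB : IsUnit B) : IsUnit C := by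
  obtain ⟨R, h1, h2⟩ := isUnit_iff_exists.1 hB
  have hC : ∀ x, C x = U.symm (B (U x)) := fun x => by rw [← h, U.symm_apply_apply]
  refine isUnit_iff_exists.2 ⟨(U.symm : F →L[ℂ] E) ∘L R ∘L (U : E →L[ℂ] F), ?_, ?_⟩
  · ext x
    have h3 : B (R (U x)) = U x := by
      have := congrArg (fun T : F →L[ℂ] F => T (U x)) h1
      exact this
    show C (U.symm (R (U x))) = x
    rw [hC, U.apply_symm_apply, h3, U.symm_apply_apply]
  · ext x
    have h3 : R (B (U x)) = U x := by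
      have := congrArg (fun T : F →L[ℂ] F => T (U x)) h2
      exact this
    show U.symm (R (U (C x))) = x
    rw [h, h3, U.symm_apply_apply]

lemma spec_conj {E F : Type} [NormedAddCommGroup E] [NormedSpace ℂ E] [NormedAddCommGroup F]
    [NormedSpace ℂ F] (U : E ≃L[ℂ] F) (B : F →L[ℂ] F) (C : E →L[ℂ] E)
    (h : ∀ x, U (C x) = B (U x)) : spectrum ℂ C = spectrum ℂ B := by
  ext l
  rw [spectrum.mem_iff, spectrum.mem_iff, not_iff_not]
  constructor
  · intro hu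
    refine unit_conj U.symm _ _ (fun y => ?_) hu
    show U.symm (l • y - B y) = l • U.symm y - C (U.symm y)
    rw [map_sub, map_smul]
    congr 1
    rw [U.symm_apply_eq, h, U.apply_symm_apply]
  · intro hu
    refine unit_conj U _ _ (fun y => ?_) hu
    show U (l • y - C y) = l • U y - B (U y)
    rw [map_sub, map_smul, h]

/-- The coordinate map of `V n χ`. -/
def JV (n : ℕ) (χ : Equiv.Perm (Fin n) →* ℤˣ) : V n χ →ₗ[ℂ] ((Fin n → ℕ) → ℂ) where
  toFun x i := (x.1 : (Fin n → ℕ) → ℂ) i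
  map_add' _ _ := rfl
  map_smul' _ _ := rfl

lemma mem_H {n : ℕ} (f : (Fin n → ℕ) → ℂ) (hf : Summable fun i => ‖f i‖ ^ 2) :
    Memℓp f 2 := by
  apply memℓp_gen
  simpa using hf

lemma isTensorSpace_V (n : ℕ) (χ : Equiv.Perm (Fin n) →* ℤˣ) :
    IsTensorSpace χ (V n χ) (JV n χ) := by
  refine ⟨fun x => hasSum_H x.1, ?_⟩
  ext f
  constructor
  · rintro ⟨x, rfl⟩
    exact ⟨(hasSum_H x.1).summable, x.2⟩
  · rintro ⟨h1, h2⟩
    exact ⟨⟨⟨f, mem_H f h1⟩, h2⟩, rfl⟩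

theorem exists_equiv {n : ℕ} (χ : Equiv.Perm (Fin n) →* ℤˣ) (E : Type) [NormedAddCommGroup E]
    [NormedSpace ℂ E] (J : E →ₗ[ℂ] ((Fin n → ℕ) → ℂ)) (hJ : IsTensorSpace χ E J) :
    ∃ U : E ≃ₗᵢ[ℂ] V n χ, ∀ x i, ((U x).1 : (Fin n → ℕ) → ℂ) i = J x i := by
  have hm : ∀ x, Summable (fun i => ‖J x i‖ ^ 2) ∧
      ∀ (π : Equiv.Perm (Fin n)) (i : Fin n → ℕ), J x (i ∘ π) = ((χ π : ℤ) : ℂ) * J x i := by
    intro x
    have h : J x ∈ Set.range J := ⟨x, rfl⟩
    rw [hJ.2] at h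
    exact h
  let L : E →ₗ[ℂ] V n χ :=
    { toFun := fun x => ⟨⟨J x, mem_H _ (hm x).1⟩, (hm x).2⟩
      map_add' := by
        intro x y
        apply Subtype.ext
        apply Subtype.ext
        exact J.map_add x y
      map_smul' := by
        intro c x
        apply Subtype.ext
        apply Subtype.ext
        exact J.map_smul c x }
  have hn : ∀ x, ‖L x‖ = ‖x‖ := by
    intro x
    have h1 := hasSum_H (L x).1
    have h2 : ‖(L x).1‖ ^ 2 = ‖x‖ ^ 2 := h1.unique (hJ.1 x)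
    have h3 : ‖L x‖ = ‖(L x).1‖ := rfl
    rw [h3]
    exact (sq_eq_sq₀ (norm_nonneg _) (norm_nonneg _)).1 h2
  have hinj : Function.Injective L := by
    rw [injective_iff_map_eq_zero]
    intro x hx
    have := hn x
    rw [hx, norm_zero] at this
    exact norm_eq_zero.1 this.symm
  have hsurj : Function.Surjective L := by
    intro v
    have h : (fun i => (v.1 : (Fin n → ℕ) → ℂ) i) ∈ Set.range J := by
      rw [hJ.2]
      exact ⟨(hasSum_H v.1).summable, v.2⟩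
    obtain ⟨x, hx⟩ := h
    refine ⟨x, ?_⟩
    apply Subtype.ext
    apply Subtype.ext
    exact hx
  exact ⟨{ LinearEquiv.ofBijective L ⟨hinj, hsurj⟩ with norm_map' := hn }, fun x i => rfl⟩

end Pool.Agent.Q192.SH
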